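import Mathlib
import Pool.Agent.H75.TwoArm.Defs

set_option autoImplicit false
open Finset

/-! Natural environments for the parafermionic observable at `p = 1/2`.

Corners, labels, `nx`, `del`, `ty`, `lab`, `vx`, `fi` are those of `H75.Perc` and `H75.TwoArm`. An
environment `X` consists of the finite set `X.E` of the random labels (tiles), a finite set `X.S` of
corners, and the deterministic rest: at a corner `c` of `X.S` whose next label `lab c` is not random, the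
strand jumps to the corner `X.out c` and turns by `X.dout c` quarter turns. For `ω ⊆ X.E` (the random
open labels) the step map is `X.f ω`, the turning is `X.d ω`. `X.c0` is the root corner; the strand
through it is the path `γ`. The axiom `total` (the loop of the root has total turning `X.T`, the same for
every `ω ⊆ X.E`) is the only trace of planarity. -/

namespace Pool.Agent.Q1

open Pool.Agent.H75.Perc Pool.Agent.H75.TwoArm

/-- step map -/
def stp (E S : Finset (ℤ × ℤ)) (out : ℤ × ℤ → ℤ × ℤ) (ω : Finset (ℤ × ℤ)) (c : ℤ × ℤ) : ℤ × ℤ :=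
  if c ∈ S then (if lab c ∈ E then nx ω c else out c) else c

/-- turning of a step -/
def tur (E S : Finset (ℤ × ℤ)) (dout : ℤ × ℤ → ℤ) (ω : Finset (ℤ × ℤ)) (c : ℤ × ℤ) : ℤ :=
  if c ∈ S then (if lab c ∈ E then del ω c else dout c) else 0

/-- A natural environment. -/
structure Env where
  E : Finset (ℤ × ℤ)
  S : Finset (ℤ × ℤ)
  out : ℤ × ℤ → ℤ × ℤ
  dout : ℤ × ℤ → ℤ
  c0 : ℤ × ℤ
  k0 : ℤ
  T : ℤ
  odd : ∀ e ∈ E, (e.1 + e.2) % 2 = 1
  c0_mem : c0 ∈ S
  in_mem : ∀ c, lab c ∈ E → c ∈ S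
  maps : ∀ ω ⊆ E, ∀ c ∈ S, stp E S out ω c ∈ S
  inj : ∀ ω ⊆ E, Set.InjOn (stp E S out ω) S
  hk0 : k0 % 4 = ty c0
  typed : ∀ c ∈ S, lab c ∉ E → (ty c + dout c) % 4 = ty (out c)
  root : ∀ c, lab c ∈ E → nxC c ≠ c0
  total : ∀ ω ⊆ E, ∀ L, Orb (stp E S out ω) c0 L →
    KK (stp E S out ω) (tur E S dout ω) c0 k0 L = k0 + T

namespace Env

variable (X : Env)

/-- the step map of the environment -/
def f (ω : Finset (ℤ × ℤ)) : ℤ × ℤ → ℤ × ℤ := stp X.E X.S X.out ω

/-- the turning of the environment -/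
def d (ω : Finset (ℤ × ℤ)) : ℤ × ℤ → ℤ := tur X.E X.S X.dout ω

variable {X}

lemma f_in {ω : Finset (ℤ × ℤ)} {c : ℤ × ℤ} (h : lab c ∈ X.E) : X.f ω c = nx ω c := by
  unfold f stp; rw [if_pos (X.in_mem c h), if_pos h]

lemma d_in {ω : Finset (ℤ × ℤ)} {c : ℤ × ℤ} (h : lab c ∈ X.E) : X.d ω c = del ω c := by
  unfold d tur; rw [if_pos (X.in_mem c h), if_pos h]

lemma f_out {ω : Finset (ℤ × ℤ)} {c : ℤ × ℤ} (hc : c ∈ X.S) (h : lab c ∉ X.E) :
    X.f ω c = X.out c := by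
  unfold f stp; rw [if_pos hc, if_neg h]

lemma d_out {ω : Finset (ℤ × ℤ)} {c : ℤ × ℤ} (hc : c ∈ X.S) (h : lab c ∉ X.E) :
    X.d ω c = X.dout c := by
  unfold d tur; rw [if_pos hc, if_neg h]

lemma f_mem {ω : Finset (ℤ × ℤ)} (hω : ω ⊆ X.E) {c : ℤ × ℤ} (hc : c ∈ X.S) : X.f ω c ∈ X.S :=
  X.maps ω hω c hc

lemma f_injective {ω : Finset (ℤ × ℤ)} (hω : ω ⊆ X.E) : Function.Injective (X.f ω) := by
  intro a b hab
  by_cases ha : a ∈ X.S <;> by_cases hb : b ∈ X.S
  · exact X.inj ω hω (mem_coe.2 ha) (mem_coe.2 hb) hab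
  · exfalso
    have h1 : X.f ω b = b := by unfold f stp; rw [if_neg hb]
    apply hb
    rw [← h1, ← hab]
    exact f_mem hω ha
  · exfalso
    have h1 : X.f ω a = a := by unfold f stp; rw [if_neg ha]
    apply ha
    rw [← h1, hab]
    exact f_mem hω hb
  · have h1 : X.f ω a = a := by unfold f stp; rw [if_neg ha]
    have h2 : X.f ω b = b := by unfold f stp; rw [if_neg hb]
    rw [← h1, ← h2, hab]

lemma orb_ex {ω : Finset (ℤ × ℤ)} (hω : ω ⊆ X.E) {c : ℤ × ℤ} (hc : c ∈ X.S) :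
    ∃ L, Orb (X.f ω) c L :=
  exists_orb (X.f ω) (f_injective hω) X.S (fun _ h => f_mem hω h) c hc

variable (X) in
/-- length of the loop of the root -/
noncomputable def len (ω : Finset (ℤ × ℤ)) : ℕ := Function.minimalPeriod (X.f ω) X.c0

lemma orb {ω : Finset (ℤ × ℤ)} (hω : ω ⊆ X.E) : Orb (X.f ω) X.c0 (X.len ω) := by
  obtain ⟨L, hL⟩ := orb_ex hω X.c0_mem
  have := hL.minimalPeriod
  unfold len
  rw [this]; exact hL

lemma len_pos {ω : Finset (ℤ × ℤ)} (hω : ω ⊆ X.E) : 0 < X.len ω := (orb hω).pos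

variable (X) in
/-- the corner number `i` of the path -/
def z (ω : Finset (ℤ × ℤ)) (i : ℕ) : ℤ × ℤ := (X.f ω)^[i] X.c0

variable (X) in
/-- the turning index (in quarter turns) at the corner number `i` of the path -/
def K (ω : Finset (ℤ × ℤ)) (i : ℕ) : ℤ := KK (X.f ω) (X.d ω) X.c0 X.k0 i

lemma z_zero {ω : Finset (ℤ × ℤ)} : X.z ω 0 = X.c0 := rfl

lemma z_succ {ω : Finset (ℤ × ℤ)} (i : ℕ) : X.z ω (i + 1) = X.f ω (X.z ω i) :=
  Function.iterate_succ_apply' _ _ _

lemma K_zero {ω : Finset (ℤ × ℤ)} : X.K ω 0 = X.k0 := KK_zero _ _ _ _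

lemma K_succ {ω : Finset (ℤ × ℤ)} (i : ℕ) : X.K ω (i + 1) = X.K ω i + X.d ω (X.z ω i) :=
  KK_succ _ _ _ _ _

lemma z_mem {ω : Finset (ℤ × ℤ)} (hω : ω ⊆ X.E) (i : ℕ) : X.z ω i ∈ X.S := by
  induction i with
  | zero => exact X.c0_mem
  | succ i ih => rw [z_succ]; exact f_mem hω ih

lemma z_len {ω : Finset (ℤ × ℤ)} (hω : ω ⊆ X.E) : X.z ω (X.len ω) = X.c0 := (orb hω).per

lemma K_len {ω : Finset (ℤ × ℤ)} (hω : ω ⊆ X.E) : X.K ω (X.len ω) = X.k0 + X.T :=
  X.total ω hω _ (orb hω)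

lemma z_inj {ω : Finset (ℤ × ℤ)} (hω : ω ⊆ X.E) {i j : ℕ} (hi : i < X.len ω) (hj : j < X.len ω)
    (h : X.z ω i = X.z ω j) : i = j := by
  rcases lt_trichotomy i j with h1 | h1 | h1
  · exact absurd h ((orb hω).inj i j h1 hj)
  · exact h1
  · exact absurd h.symm ((orb hω).inj j i h1 hi)

/-- the turning index fixes the type of the corner -/
lemma K_mod {ω : Finset (ℤ × ℤ)} (hω : ω ⊆ X.E) (i : ℕ) : X.K ω i % 4 = ty (X.z ω i) := by
  induction i with
  | zero => rw [K_zero]; exact X.hk0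
  | succ i ih =>
    rw [K_succ, z_succ]
    have hz := z_mem hω i
    by_cases h : lab (X.z ω i) ∈ X.E
    · rw [f_in h, d_in h]
      exact ty_nx ω _ _ ih
    · rw [f_out hz h, d_out hz h]
      have := X.typed _ hz h
      omega

end Env

/-! ### The phase -/

/-- the primitive sixth root of unity `e^{iπ/3}` -/
noncomputable def w6 : ℂ := ⟨1 / 2, Real.sqrt 3 / 2⟩

lemma w6_sq : w6 ^ 2 = w6 - 1 := by
  have h3 : Real.sqrt 3 * Real.sqrt 3 = 3 := Real.mul_self_sqrt (by norm_num)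
  apply Complex.ext
  · simp only [w6, sq, Complex.mul_re, Complex.sub_re, Complex.one_re]
    nlinarith
  · simp only [w6, sq, Complex.mul_im, Complex.sub_im, Complex.one_im]
    ring

lemma w6_ne : w6 ≠ 0 := by
  intro h
  have := congrArg Complex.re h
  simp [w6] at this

lemma w6_cube : w6 ^ 3 = -1 := by
  have h := w6_sq
  calc w6 ^ 3 = w6 ^ 2 * w6 := by ring
    _ = (w6 - 1) * w6 := by rw [h]
    _ = w6 ^ 2 - w6 := by ring
    _ = -1 := by rw [h]; ring

lemma w6_normSq : Complex.normSq w6 = 1 := by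
  have h3 : Real.sqrt 3 * Real.sqrt 3 = 3 := Real.mul_self_sqrt (by norm_num)
  simp only [w6, Complex.normSq_mk]
  nlinarith

lemma w6_norm : ‖w6‖ = 1 := by
  have h := Complex.normSq_eq_norm_sq w6
  rw [w6_normSq] at h
  nlinarith [norm_nonneg w6]

/-- the phase `e^{iπk/3}` -/
noncomputable def ph (k : ℤ) : ℂ := w6 ^ k

lemma ph_zero : ph 0 = 1 := zpow_zero _

lemma ph_one : ph 1 = w6 := zpow_one _

lemma ph_add (a b : ℤ) : ph (a + b) = ph a * ph b := zpow_add₀ w6_ne a b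

lemma ph_ne (k : ℤ) : ph k ≠ 0 := zpow_ne_zero _ w6_ne

lemma ph_norm (k : ℤ) : ‖ph k‖ = 1 := by
  unfold ph; rw [norm_zpow, w6_norm, one_zpow]

lemma ph_three : ph 3 = -1 := by
  unfold ph
  rw [show (3 : ℤ) = ((3 : ℕ) : ℤ) from rfl, zpow_natCast]
  exact w6_cube

lemma ph_add_three (k : ℤ) : ph (k + 3) = -ph k := by rw [ph_add, ph_three]; ring

lemma ph_add_six (k : ℤ) : ph (k + 6) = ph k := by
  rw [show k + 6 = (k + 3) + 3 by ring, ph_add_three, ph_add_three, neg_neg]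

lemma ph_rec (k : ℤ) : ph (k + 2) = ph (k + 1) - ph k := by
  rw [ph_add, ph_add, ph_one]
  have : ph 2 = w6 ^ 2 := by
    unfold ph
    rw [show (2 : ℤ) = ((2 : ℕ) : ℤ) from rfl, zpow_natCast]
  rw [this, w6_sq]; ring

lemma ph_mod (k : ℤ) : ph k = ph (k % 6) := by
  have h : ∀ n : ℕ, ∀ k : ℤ, ph (k + 6 * n) = ph k := by
    intro n
    induction n with
    | zero => intro k; simp
    | succ n ih =>
      intro k
      rw [show k + 6 * ((n + 1 : ℕ) : ℤ) = (k + 6 * (n : ℤ)) + 6 by push_cast; ring, ph_add_six, ih]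
  have e := Int.emod_add_mul_ediv k 6
  rcases Int.eq_ofNat_of_zero_le (show (0 : ℤ) ≤ |k / 6| from abs_nonneg _) with ⟨n, hn⟩
  rcases abs_choice (k / 6) with h1 | h1
  · rw [h1] at hn
    have := h n (k % 6)
    rw [← this]; congr 1
    rw [hn] at e
    exact e.symm
  · rw [h1] at hn
    have hk : k / 6 = -(n : ℤ) := by linarith
    have := h n k
    rw [← this]; congr 1
    rw [hk] at e
    linarith

/-- integer solution of the recursion -/
def th (k : ℤ) : ℤ := if k % 6 = 0 then 0 else if k % 6 = 1 then 1 else if k % 6 = 2 then 1 else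
  if k % 6 = 3 then 0 else -1

lemma th_rec (k : ℤ) : th (k + 2) = th (k + 1) - th k := by
  have h : k % 6 = 0 ∨ k % 6 = 1 ∨ k % 6 = 2 ∨ k % 6 = 3 ∨ k % 6 = 4 ∨ k % 6 = 5 := by omega
  unfold th
  rcases h with h | h | h | h | h | h
  · rw [show (k + 2) % 6 = 2 by omega, show (k + 1) % 6 = 1 by omega, h]; rfl
  · rw [show (k + 2) % 6 = 3 by omega, show (k + 1) % 6 = 2 by omega, h]; rfl
  · rw [show (k + 2) % 6 = 4 by omega, show (k + 1) % 6 = 3 by omega, h]; rfl
  · rw [show (k + 2) % 6 = 5 by omega, show (k + 1) % 6 = 4 by omega, h]; rfl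
  · rw [show (k + 2) % 6 = 0 by omega, show (k + 1) % 6 = 5 by omega, h]; rfl
  · rw [show (k + 2) % 6 = 1 by omega, show (k + 1) % 6 = 0 by omega, h]; rfl

/-- shifted integer solution -/
def th' (k : ℤ) : ℤ := th (k - 1)

lemma th'_rec (k : ℤ) : th' (k + 2) = th' (k + 1) - th' k := by
  unfold th'
  have := th_rec (k - 1)
  rw [show k + 2 - 1 = k - 1 + 2 by ring, show k + 1 - 1 = k - 1 + 1 by ring]
  exact this

lemma ph_eq (k : ℤ) : ph k = -(th' k : ℂ) + w6 * (th k : ℂ) := by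
  rw [ph_mod k]
  have h : k % 6 = 0 ∨ k % 6 = 1 ∨ k % 6 = 2 ∨ k % 6 = 3 ∨ k % 6 = 4 ∨ k % 6 = 5 := by omega
  have p2 : ph 2 = w6 - 1 := by
    have := ph_rec 0
    simp only [zero_add] at this
    rw [this, ph_one, ph_zero]
  have p4 : ph 4 = -w6 := by
    have := ph_add_three 1
    rw [show (1 : ℤ) + 3 = 4 by norm_num, ph_one] at this
    exact this
  have p5 : ph 5 = 1 - w6 := by
    have := ph_add_three 2
    rw [show (2 : ℤ) + 3 = 5 by norm_num, p2] at this
    rw [this]; ring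
  unfold th' th
  rcases h with h | h | h | h | h | h
  · rw [show (k - 1) % 6 = 5 by omega, h, ph_zero]; norm_num
  · rw [show (k - 1) % 6 = 0 by omega, h, ph_one]; norm_num
  · rw [show (k - 1) % 6 = 1 by omega, h, p2]; norm_num; ring
  · rw [show (k - 1) % 6 = 2 by omega, h, ph_three]; norm_num
  · rw [show (k - 1) % 6 = 3 by omega, h, p4]; norm_num
  · rw [show (k - 1) % 6 = 4 by omega, h, p5]; norm_num; ring

lemma w6_exp : w6 = Complex.exp ((Real.pi / 3 : ℝ) * Complex.I) := by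
  rw [Complex.exp_mul_I, ← Complex.ofReal_cos, ← Complex.ofReal_sin, Real.cos_pi_div_three,
    Real.sin_pi_div_three]
  apply Complex.ext <;> simp [w6]

end Pool.Agent.Q1
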