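import Mathlib
import Pool.Agent.H75.Perc.Orbit

set_option autoImplicit false
open Finset

/-! The cancellation lemma of `Orbit.lean` for loops whose total turning is any constant. -/

namespace Pool.Agent.H75.Perc

variable {α : Type*}

/-- Local cancellation when both `p` and `q` lie on the orbit of `c` under `f`. -/
lemma contrib_bothT [DecidableEq α] (θ : ℤ → ℤ) (hθ : ∀ k, θ (k + 2) = θ (k + 1) - θ k)
    {f f' : α → α} {p q : α} (h : Swapped f f' p q) (hpq : p ≠ q) {δ δ' : α → ℤ} {e : ℤ}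
    (he : e = 1 ∨ e = -1)
    (hδ : ∀ x, x ≠ p → x ≠ q → δ' x = δ x) (hp1 : δ p = e) (hq1 : δ q = e) (hp2 : δ' p = -e)
    {c : α} {L L' : ℕ} (k0 : ℤ)
    (hO : Orb f c L) (hO' : Orb f' c L') {a b : ℕ} (hab : a < b) (hbL : b < L)
    (ha : f^[a] c = p) (hb : f^[b] c = q)
    (hT : KK f δ c k0 L = KK f' δ' c k0 L') :
    contrib θ f δ c k0 L p q + contrib θ f' δ' c k0 L' p q = 0 := by
  obtain ⟨h1, h2, h3⟩ := h.split hO hab hbL ha hb
  obtain ⟨k1, k2⟩ := h.split_KK hδ hq1 hp2 k0 hO hab hbL ha hb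
  have hL' : L' = L - (b - a) := hO'.unique h3
  rw [← hL', ← hT] at k2
  have kb : KK f δ c k0 b = KK f δ c k0 a - 2 * e := by linarith
  have c1 : contrib θ f δ c k0 L p q =
      (θ (KK f δ c k0 a) - θ (KK f δ c k0 a + e)) + (θ (KK f δ c k0 b) - θ (KK f δ c k0 b + e)) := by
    unfold contrib
    rw [Finset.sum_eq_add a b (by omega)]
    · rw [if_pos (Or.inl ha), if_pos (Or.inr hb), ha, hb, hp1, hq1]
    · intro i hi hne
      have hiL := Finset.mem_range.1 hi
      rw [if_neg]
      rintro (h' | h')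
      · rw [← ha] at h'
        rcases lt_or_gt_of_ne hne.1 with hlt | hgt
        · exact hO.inj i a hlt (by omega) h'
        · exact hO.inj a i hgt hiL h'.symm
      · rw [← hb] at h'
        rcases lt_or_gt_of_ne hne.2 with hlt | hgt
        · exact hO.inj i b hlt (by omega) h'
        · exact hO.inj b i hgt hiL h'.symm
    · intro hn; exact absurd (Finset.mem_range.2 (by omega)) hn
    · intro hn; exact absurd (Finset.mem_range.2 (by omega)) hn
  have c2 : contrib θ f' δ' c k0 L' p q = θ (KK f δ c k0 a) - θ (KK f δ c k0 a - e) := by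
    unfold contrib
    rw [Finset.sum_eq_single a]
    · rw [h1 a le_rfl, if_pos (Or.inl ha), ha, hp2, k1 a le_rfl]; rfl
    · intro i hi hne
      have hiL := Finset.mem_range.1 hi
      rw [if_neg]
      rintro (h' | h')
      · rw [← ha, ← h1 a le_rfl] at h'
        rcases lt_or_gt_of_ne hne with hlt | hgt
        · exact hO'.inj i a hlt (by omega) h'
        · exact hO'.inj a i hgt hiL h'.symm
      · -- q is not on the new orbit
        by_cases hia : i ≤ a
        · rw [h1 i hia, ← hb] at h'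
          exact hO.inj i b (by omega) hbL h'
        · have e1 : i = a + 1 + (i - a - 1) := by omega
          rw [e1, h2 _ (by omega), ← hb] at h'
          exact hO.inj b _ (by omega) (by omega) h'.symm
    · intro hn; exact absurd (Finset.mem_range.2 (by omega)) hn
  rw [c1, c2, kb]
  set x := KK f δ c k0 a
  rcases he with he | he
  · subst he
    have a1 := hθ (x - 2)
    have a2 := hθ (x - 1)
    have e1 : x - 2 + 2 = x := by ring
    have e2 : x - 2 + 1 = x - 1 := by ring
    have e3 : x - 1 + 2 = x + 1 := by ring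
    have e4 : x - 1 + 1 = x := by ring
    have e5 : x - 2 * 1 = x - 2 := by ring
    have e6 : x - 2 * 1 + 1 = x - 1 := by ring
    rw [e1, e2] at a1
    rw [e3, e4] at a2
    rw [e6, e5]
    linarith
  · subst he
    have a1 := hθ x
    have a2 := hθ (x - 1)
    have e3 : x - 1 + 2 = x + 1 := by ring
    have e4 : x - 1 + 1 = x := by ring
    have e5 : x - 2 * -1 = x + 2 := by ring
    have e6 : x - 2 * -1 + -1 = x + 1 := by ring
    have e7 : x + -1 = x - 1 := by ring
    have e8 : x - -1 = x + 1 := by ring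
    rw [e3, e4] at a2
    rw [e6, e5, e7, e8]
    linarith

/-- Local cancellation, general case. -/
lemma contrib_pairT [DecidableEq α] (θ : ℤ → ℤ) (hθ : ∀ k, θ (k + 2) = θ (k + 1) - θ k)
    {f f' : α → α} {p q : α} (h : Swapped f f' p q) (hpq : p ≠ q) {δ δ' : α → ℤ} {e : ℤ}
    (he : e = 1 ∨ e = -1)
    (hδ : ∀ x, x ≠ p → x ≠ q → δ' x = δ x) (hp1 : δ p = e) (hq1 : δ q = e) (hp2 : δ' p = -e)
    (hq2 : δ' q = -e)
    {c : α} {L L' Mp Mq : ℕ} (k0 : ℤ)
    (hO : Orb f c L) (hO' : Orb f' c L') (hMp : Orb f p Mp) (hMq : Orb f q Mq)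
    (hT : KK f δ c k0 L = KK f' δ' c k0 L') :
    contrib θ f δ c k0 L p q + contrib θ f' δ' c k0 L' p q = 0 := by
  -- reduction to both on the orbit of f
  have main : ∀ (f f' : α → α) (δ δ' : α → ℤ) (e : ℤ) (L L' : ℕ), Swapped f f' p q →
      (e = 1 ∨ e = -1) → (∀ x, x ≠ p → x ≠ q → δ' x = δ x) → δ p = e → δ q = e → δ' p = -e →
      δ' q = -e → Orb f c L → Orb f' c L' → KK f δ c k0 L = KK f' δ' c k0 L' →
      InOrb f c p → InOrb f c q →
      contrib θ f δ c k0 L p q + contrib θ f' δ' c k0 L' p q = 0 := by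
    intro f f' δ δ' e L L' h he hδ hp1 hq1 hp2 hq2 hO hO' hT hp hq
    obtain ⟨a, haL, ha⟩ := (hO.inOrb_iff p).1 hp
    obtain ⟨b, hbL, hb⟩ := (hO.inOrb_iff q).1 hq
    rcases lt_trichotomy a b with hlt | heq | hgt
    · exact contrib_bothT θ hθ h hpq he hδ hp1 hq1 hp2 k0 hO hO' hlt hbL ha hb hT
    · subst heq; exact absurd (ha.symm.trans hb) hpq
    · rw [contrib_comm θ f δ c k0 L p q, contrib_comm θ f' δ' c k0 L' p q]
      exact contrib_bothT θ hθ h.comm hpq.symm he (fun x h1 h2 => hδ x h2 h1) hq1 hp1 hq2 k0 hO hO'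
        hgt haL hb ha hT
  by_cases hp : InOrb f c p <;> by_cases hq : InOrb f c q
  · exact main f f' δ δ' e L L' h he hδ hp1 hq1 hp2 hq2 hO hO' hT hp hq
  · -- merge
    obtain ⟨m1, m2, -, -⟩ := h.merge hO hMq hp hq
    have := main f' f δ' δ (-e) L' L h.symm (by rcases he with h | h <;> simp [h])
      (fun x h1 h2 => (hδ x h1 h2).symm) hp2 hq2 (by simpa using hp1) (by simpa using hq1)
      hO' hO hT.symm m1 m2
    linarith
  · obtain ⟨m1, m2, -, -⟩ := h.comm.merge hO hMp hq hp
    have := main f' f δ' δ (-e) L' L h.symm (by rcases he with h | h <;> simp [h])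
      (fun x h1 h2 => (hδ x h1 h2).symm) hp2 hq2 (by simpa using hp1) (by simpa using hq1)
      hO' hO hT.symm m2 m1
    linarith
  · rw [contrib_none θ f δ c k0 L p q hp hq]
    -- the orbit is unchanged
    have hag : ∀ i, f'^[i] c = f^[i] c := by
      intro i
      exact h.agree c i (fun j _ => ⟨fun e => hp ⟨j, e⟩, fun e => hq ⟨j, e⟩⟩) i le_rfl
    have hp' : ¬ InOrb f' c p := by
      rintro ⟨i, hi⟩; rw [hag i] at hi; exact hp ⟨i, hi⟩
    have hq' : ¬ InOrb f' c q := by
      rintro ⟨i, hi⟩; rw [hag i] at hi; exact hq ⟨i, hi⟩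
    rw [contrib_none θ f' δ' c k0 L' p q hp' hq']; ring

end Pool.Agent.H75.Perc
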