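import Mathlib
import Pool.Agent.Q1.Env
import Pool.Agent.Q1.OrbitT

set_option autoImplicit false
open Finset

/-! The increments of `H` and the identity at a tile. -/

namespace Pool.Agent.Q1

open Pool.Agent.H75.Perc Pool.Agent.H75.TwoArm

namespace Env

variable {X : Env}

lemma swapped {ω : Finset (ℤ × ℤ)} {e : ℤ × ℤ} (he : e ∈ X.E) (hn : e ∉ ω) :
    Swapped (X.f ω) (X.f (insert e ω)) (in1 e) (in2 e) := by
  have ho := X.odd e he
  have h := swapped_insert ω e ho hn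
  have l1 : lab (in1 e) ∈ X.E := by rw [lab_in1 e ho]; exact he
  have l2 : lab (in2 e) ∈ X.E := by rw [lab_in2 e ho]; exact he
  refine ⟨?_, ?_, ?_⟩
  · rw [f_in l1, f_in l2]; exact h.atp
  · rw [f_in l1, f_in l2]; exact h.atq
  · intro x h1 h2
    by_cases hx : lab x ∈ X.E
    · rw [f_in hx, f_in hx]; exact h.off x h1 h2
    · unfold f stp
      rw [if_neg hx]
      simp only [hx, if_false]

lemma d_off {ω : Finset (ℤ × ℤ)} {e : ℤ × ℤ} (he : e ∈ X.E) (x : ℤ × ℤ) (h1 : x ≠ in1 e)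
    (h2 : x ≠ in2 e) : X.d (insert e ω) x = X.d ω x := by
  by_cases hx : lab x ∈ X.E
  · rw [d_in hx, d_in hx]; exact del_off ω e (X.odd e he) x h1 h2
  · unfold d tur
    simp only [hx, if_false]

lemma pair_cancel (θ : ℤ → ℤ) (hθ : ∀ k, θ (k + 2) = θ (k + 1) - θ k) {ω : Finset (ℤ × ℤ)}
    (hω : ω ⊆ X.E) {e : ℤ × ℤ} (he : e ∈ X.E) (hn : e ∉ ω) :
    contrib θ (X.f ω) (X.d ω) X.c0 X.k0 (X.len ω) (in1 e) (in2 e) +
      contrib θ (X.f (insert e ω)) (X.d (insert e ω)) X.c0 X.k0 (X.len (insert e ω))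
        (in1 e) (in2 e) = 0 := by
  have ho := X.odd e he
  have hω' : insert e ω ⊆ X.E := insert_subset he hω
  have l1 : lab (in1 e) ∈ X.E := by rw [lab_in1 e ho]; exact he
  have l2 : lab (in2 e) ∈ X.E := by rw [lab_in2 e ho]; exact he
  obtain ⟨Mp, hMp⟩ := orb_ex hω (X.in_mem _ l1)
  obtain ⟨Mq, hMq⟩ := orb_ex hω (X.in_mem _ l2)
  refine contrib_pairT θ hθ (swapped he hn) (in1_ne_in2 e) (e := 1) (Or.inl rfl)
    (d_off he) ?_ ?_ ?_ ?_ X.k0 (orb hω) (orb hω') hMp hMq ?_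
  · rw [d_in l1]; unfold del; rw [lab_in1 e ho, if_neg hn]
  · rw [d_in l2]; unfold del; rw [lab_in2 e ho, if_neg hn]
  · rw [d_in l1]; unfold del; rw [lab_in1 e ho, if_pos (mem_insert_self _ _)]
  · rw [d_in l2]; unfold del; rw [lab_in2 e ho, if_pos (mem_insert_self _ _)]
  · exact (K_len hω).trans (K_len hω').symm

lemma sum_contrib (θ : ℤ → ℤ) (hθ : ∀ k, θ (k + 2) = θ (k + 1) - θ k) {e : ℤ × ℤ}
    (he : e ∈ X.E) : ∑ ω ∈ X.E.powerset,
      contrib θ (X.f ω) (X.d ω) X.c0 X.k0 (X.len ω) (in1 e) (in2 e) = 0 := by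
  classical
  refine Finset.sum_involution (fun ω _ => if e ∈ ω then ω.erase e else insert e ω) ?_ ?_ ?_ ?_
  · intro ω hω
    rw [mem_powerset] at hω
    by_cases hn : e ∈ ω
    · rw [if_pos hn]
      have h1 : ω.erase e ⊆ X.E := (erase_subset _ _).trans hω
      have := pair_cancel θ hθ h1 he (notMem_erase e ω)
      rw [insert_erase hn] at this
      linarith
    · rw [if_neg hn]
      exact pair_cancel θ hθ hω he hn
  · intro ω hω _
    by_cases hn : e ∈ ω
    · rw [if_pos hn]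
      intro hh
      have := notMem_erase e ω
      rw [hh] at this
      exact this hn
    · rw [if_neg hn]
      intro hh
      exact hn (hh ▸ mem_insert_self e ω)
  · intro ω hω
    rw [mem_powerset] at hω ⊢
    by_cases hn : e ∈ ω
    · rw [if_pos hn]; exact (erase_subset _ _).trans hω
    · rw [if_neg hn]
      exact insert_subset he hω
  · intro ω hω
    by_cases hn : e ∈ ω
    · simp only [if_pos hn, notMem_erase, if_false]
      exact insert_erase hn
    · simp only [if_neg hn, mem_insert_self, if_true]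
      exact erase_insert hn

variable (X) in
/-- the increment across the corner `c` in the configuration `ω` -/
noncomputable def incO (ω : Finset (ℤ × ℤ)) (c : ℤ × ℤ) : ℂ :=
  ∑ i ∈ range (X.len ω), if X.z ω i = c then ph (X.K ω i) else 0

variable (X) in
/-- the increment of `H` across the corner `c` (value at the vertex `vx c` minus value at the
face `fi c`) -/
noncomputable def inc (c : ℤ × ℤ) : ℂ :=
  (1 / 2 : ℂ) ^ X.E.card * ∑ ω ∈ X.E.powerset, X.incO ω c

lemma incO_of {ω : Finset (ℤ × ℤ)} (hω : ω ⊆ X.E) {i : ℕ} (hi : i < X.len ω) {c : ℤ × ℤ}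
    (h : X.z ω i = c) : X.incO ω c = ph (X.K ω i) := by
  unfold incO
  rw [Finset.sum_eq_single i]
  · rw [if_pos h]
  · intro j hj hji
    rw [if_neg]
    intro h2
    exact hji (z_inj hω (mem_range.1 hj) hi (h2.trans h.symm))
  · intro hn; exact absurd (mem_range.2 hi) hn

lemma incO_zero {ω : Finset (ℤ × ℤ)} {c : ℤ × ℤ} (h : ∀ i < X.len ω, X.z ω i ≠ c) :
    X.incO ω c = 0 := by
  unfold incO
  apply Finset.sum_eq_zero
  intro i hi
  rw [if_neg (h i (mem_range.1 hi))]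

lemma incO_norm {ω : Finset (ℤ × ℤ)} (hω : ω ⊆ X.E) (c : ℤ × ℤ) : ‖X.incO ω c‖ ≤ 1 := by
  by_cases h : ∃ i < X.len ω, X.z ω i = c
  · obtain ⟨i, hi, h⟩ := h
    rw [incO_of hω hi h, ph_norm]
  · push Not at h
    rw [incO_zero h]; simp

/-- both corners in front of the tile together -/
lemma sum_two {ω : Finset (ℤ × ℤ)} (p q : ℤ × ℤ) (hpq : p ≠ q) :
    X.incO ω p + X.incO ω q =
      ∑ i ∈ range (X.len ω), if X.z ω i = p ∨ X.z ω i = q then ph (X.K ω i) else 0 := by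
  unfold incO
  rw [← Finset.sum_add_distrib]
  apply Finset.sum_congr rfl
  intro i _
  by_cases h1 : X.z ω i = p
  · have h2 : X.z ω i ≠ q := fun h => hpq (h1.symm.trans h)
    simp [h1, hpq]
  · by_cases h2 : X.z ω i = q
    · rw [if_neg h1, if_pos h2, if_pos (Or.inr h2), zero_add]
    · simp [h1, h2]

lemma out_iff {ω : Finset (ℤ × ℤ)} (hω : ω ⊆ X.E) {e : ℤ × ℤ} (he : e ∈ X.E) (c : ℤ × ℤ) :
    (X.f ω c = nxC (in1 e) ∨ X.f ω c = nxC (in2 e)) ↔ (c = in1 e ∨ c = in2 e) := by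
  have ho := X.odd e he
  have l1 : lab (in1 e) ∈ X.E := by rw [lab_in1 e ho]; exact he
  have l2 : lab (in2 e) ∈ X.E := by rw [lab_in2 e ho]; exact he
  have hinj := f_injective (X := X) hω
  by_cases hn : e ∈ ω
  · have e1 : X.f ω (in1 e) = nxC (in2 e) := by
      rw [f_in l1]; unfold nx; rw [lab_in1 e ho, if_pos hn, nxO_in1 e ho]
    have e2 : X.f ω (in2 e) = nxC (in1 e) := by
      rw [f_in l2]; unfold nx; rw [lab_in2 e ho, if_pos hn, nxO_in2 e ho]
    rw [← e1, ← e2, hinj.eq_iff, hinj.eq_iff, or_comm]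
  · have e1 : X.f ω (in1 e) = nxC (in1 e) := by
      rw [f_in l1]; unfold nx; rw [lab_in1 e ho, if_neg hn]
    have e2 : X.f ω (in2 e) = nxC (in2 e) := by
      rw [f_in l2]; unfold nx; rw [lab_in2 e ho, if_neg hn]
    rw [← e1, ← e2, hinj.eq_iff, hinj.eq_iff]

lemma nxC_ne (e : ℤ × ℤ) : nxC (in1 e) ≠ nxC (in2 e) := by
  intro h
  have h1 : nx ∅ (in1 e) = nx ∅ (in2 e) := by
    unfold nx
    rw [if_neg (notMem_empty _), if_neg (notMem_empty _)]
    exact h
  exact in1_ne_in2 e (nx_injective ∅ h1)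

lemma sum_out {ω : Finset (ℤ × ℤ)} (hω : ω ⊆ X.E) {e : ℤ × ℤ} (he : e ∈ X.E) :
    X.incO ω (nxC (in1 e)) + X.incO ω (nxC (in2 e)) =
      ∑ i ∈ range (X.len ω), if X.z ω i = in1 e ∨ X.z ω i = in2 e then ph (X.K ω (i + 1)) else 0 := by
  have ho := X.odd e he
  rw [sum_two _ _ (nxC_ne e)]
  set g : ℕ → ℂ := fun i => if X.z ω i = nxC (in1 e) ∨ X.z ω i = nxC (in2 e) then
    ph (X.K ω i) else 0 with hg
  have l1 : lab (in1 e) ∈ X.E := by rw [lab_in1 e ho]; exact he
  have l2 : lab (in2 e) ∈ X.E := by rw [lab_in2 e ho]; exact he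
  have g0 : g 0 = 0 := by
    rw [hg]
    simp only
    rw [if_neg]
    rintro (h | h)
    · exact X.root _ l1 h.symm
    · exact X.root _ l2 h.symm
  have gL : g (X.len ω) = 0 := by
    rw [hg]
    simp only
    rw [if_neg]
    rw [z_len hω]
    rintro (h | h)
    · exact X.root _ l1 h.symm
    · exact X.root _ l2 h.symm
  have s1 := Finset.sum_range_succ g (X.len ω)
  have s2 := Finset.sum_range_succ' g (X.len ω)
  rw [gL, add_zero] at s1
  rw [g0, add_zero] at s2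
  have : ∑ i ∈ range (X.len ω), g i = ∑ i ∈ range (X.len ω), g (i + 1) := by rw [← s1, s2]
  rw [this]
  apply Finset.sum_congr rfl
  intro i _
  rw [hg]
  simp only
  rw [z_succ]
  simp only [out_iff hω he]

lemma contrib_cast {ω : Finset (ℤ × ℤ)} (hω : ω ⊆ X.E) {e : ℤ × ℤ} (he : e ∈ X.E) :
    (X.incO ω (in1 e) + X.incO ω (in2 e)) -
      (X.incO ω (nxC (in1 e)) + X.incO ω (nxC (in2 e))) =
    -((contrib th' (X.f ω) (X.d ω) X.c0 X.k0 (X.len ω) (in1 e) (in2 e) : ℤ) : ℂ) +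
      w6 * ((contrib th (X.f ω) (X.d ω) X.c0 X.k0 (X.len ω) (in1 e) (in2 e) : ℤ) : ℂ) := by
  rw [sum_two _ _ (in1_ne_in2 e), sum_out hω he, ← Finset.sum_sub_distrib]
  unfold contrib
  rw [Int.cast_sum, Int.cast_sum, Finset.mul_sum, ← Finset.sum_neg_distrib,
    ← Finset.sum_add_distrib]
  apply Finset.sum_congr rfl
  intro i _
  have hz : (X.f ω)^[i] X.c0 = X.z ω i := rfl
  have hK : KK (X.f ω) (X.d ω) X.c0 X.k0 i = X.K ω i := rfl
  rw [hz, hK, ← K_succ]
  split_ifs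
  · rw [ph_eq (X.K ω i), ph_eq (X.K ω (i + 1))]
    push_cast
    ring
  · simp

/-- **The identity at a random tile.** -/
theorem closed {e : ℤ × ℤ} (he : e ∈ X.E) :
    X.inc (in1 e) + X.inc (in2 e) = X.inc (nxC (in1 e)) + X.inc (nxC (in2 e)) := by
  have h : ∑ ω ∈ X.E.powerset, ((X.incO ω (in1 e) + X.incO ω (in2 e)) -
      (X.incO ω (nxC (in1 e)) + X.incO ω (nxC (in2 e)))) = 0 := by
    rw [Finset.sum_congr rfl (fun ω hω => contrib_cast (mem_powerset.1 hω) he),
      Finset.sum_add_distrib, Finset.sum_neg_distrib, ← Finset.mul_sum, ← Int.cast_sum,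
      ← Int.cast_sum, sum_contrib th' th'_rec he, sum_contrib th th_rec he]
    simp
  rw [Finset.sum_sub_distrib, Finset.sum_add_distrib, Finset.sum_add_distrib, sub_eq_zero] at h
  unfold inc
  rw [← mul_add, ← mul_add, h]

end Env

end Pool.Agent.Q1
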