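import Mathlib
import Pool.Agent.Q1.Closed

set_option autoImplicit false
open Finset

/-! The primitive `H` on a rectangle of tiles. -/

namespace Pool.Agent.Q1

open Pool.Agent.H75.Perc Pool.Agent.H75.TwoArm

lemma sum_Ico_int {A : Type*} [AddCommMonoid A] (u : ℤ → A) {a x : ℤ} (h : a ≤ x) :
    ∑ i ∈ Ico a (x + 1), u i = ∑ i ∈ Ico a x, u i + u x := by
  have : Ico a (x + 1) = insert x (Ico a x) := by
    ext i; simp only [mem_insert, mem_Ico]; omega
  rw [this, Finset.sum_insert (by simp), add_comm]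

/-- the four corners of a horizontal edge -/
lemma corners_h (x y : ℤ) : in1 (2 * x + 1, 2 * y) = (2 * x + 1, 2 * y) ∧
    in2 (2 * x + 1, 2 * y) = (2 * x + 2, 2 * y + 1) ∧
    nxC (2 * x + 1, 2 * y) = (2 * x + 1, 2 * y + 1) ∧
    nxC (2 * x + 2, 2 * y + 1) = (2 * x + 2, 2 * y) := by
  refine ⟨?_, ?_, ?_, ?_⟩
  · unfold in1; simp only; rw [if_pos (by omega)]
  · unfold in2; simp only; rw [if_pos (by omega)]; ext <;> simp; ring
  · unfold nxC; simp only; rw [if_pos (by omega), if_neg (by omega)]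
  · unfold nxC; simp only; rw [if_neg (by omega), if_pos (by omega)]; ext <;> simp

/-- the four corners of a vertical edge -/
lemma corners_v (x y : ℤ) : in1 (2 * x, 2 * y + 1) = (2 * x, 2 * y + 2) ∧
    in2 (2 * x, 2 * y + 1) = (2 * x + 1, 2 * y + 1) ∧
    nxC (2 * x, 2 * y + 2) = (2 * x + 1, 2 * y + 2) ∧
    nxC (2 * x + 1, 2 * y + 1) = (2 * x, 2 * y + 1) := by
  refine ⟨?_, ?_, ?_, ?_⟩
  · unfold in1; simp only; rw [if_neg (by omega)]; ext <;> simp; ring
  · unfold in2; simp only; rw [if_neg (by omega)]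
  · unfold nxC; simp only; rw [if_pos (by omega), if_pos (by omega)]
  · unfold nxC; simp only; rw [if_neg (by omega), if_neg (by omega)]; ext <;> simp

/-- `g` satisfies the tile identity at `e` -/
def ClosedAt {A : Type*} [AddCommGroup A] (g : ℤ × ℤ → A) (e : ℤ × ℤ) : Prop :=
  g (in1 e) + g (in2 e) = g (nxC (in1 e)) + g (nxC (in2 e))

/-- `Hv`, `Hf` is a primitive of `g` at the tile `e` -/
def PrimAt {A : Type*} [AddCommGroup A] (g Hv Hf : ℤ × ℤ → A) (e : ℤ × ℤ) : Prop :=
  ∀ c, (c = in1 e ∨ c = in2 e ∨ c = nxC (in1 e) ∨ c = nxC (in2 e)) → Hv (vx c) - Hf (fi c) = g c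

/-- Existence of the primitive on a rectangle. -/
theorem exists_prim {A : Type*} [AddCommGroup A] (g : ℤ × ℤ → A) (a b c d : ℤ)
    (h : ∀ e ∈ Bx a b c d, ClosedAt g e) :
    ∃ Hv Hf : ℤ × ℤ → A, ∀ e ∈ Bx a b c d, PrimAt g Hv Hf e := by
  classical
  -- horizontal and vertical closedness
  have hh : ∀ x y : ℤ, a ≤ x → x + 1 ≤ b → c ≤ y → y ≤ d →
      g (2 * x + 1, 2 * y) + g (2 * x + 2, 2 * y + 1) =
        g (2 * x + 1, 2 * y + 1) + g (2 * x + 2, 2 * y) := by
    intro x y h1 h2 h3 h4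
    have := h (2 * x + 1, 2 * y) (by rw [mem_Bx]; simp only; omega)
    unfold ClosedAt at this
    obtain ⟨e1, e2, e3, e4⟩ := corners_h x y
    rw [e1, e2, e3, e4] at this
    exact this
  have hv : ∀ x y : ℤ, a ≤ x → x ≤ b → c ≤ y → y + 1 ≤ d →
      g (2 * x, 2 * y + 2) + g (2 * x + 1, 2 * y + 1) =
        g (2 * x + 1, 2 * y + 2) + g (2 * x, 2 * y + 1) := by
    intro x y h1 h2 h3 h4
    have := h (2 * x, 2 * y + 1) (by rw [mem_Bx]; simp only; omega)
    unfold ClosedAt at this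
    obtain ⟨e1, e2, e3, e4⟩ := corners_v x y
    rw [e1, e2, e3, e4] at this
    exact this
  set dx : ℤ → ℤ → A := fun x y => g (2 * x + 2, 2 * y) - g (2 * x + 1, 2 * y) with hdx
  set dy : ℤ → ℤ → A := fun x y => g (2 * x, 2 * y + 2) - g (2 * x, 2 * y + 1) with hdy
  set H : ℤ → ℤ → A := fun x y => ∑ i ∈ Ico a x, dx i c + ∑ j ∈ Ico c y, dy x j with hH
  have Hy : ∀ x y : ℤ, c ≤ y → H x (y + 1) = H x y + dy x y := by
    intro x y hy
    simp only [hH]
    rw [sum_Ico_int _ hy, ← add_assoc]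
  have Hx : ∀ x : ℤ, a ≤ x → x + 1 ≤ b → ∀ n : ℕ, c + n ≤ d → H (x + 1) (c + n) =
      H x (c + n) + dx x (c + n) := by
    intro x h1 h2 n
    induction n with
    | zero =>
      intro _
      simp only [hH, Nat.cast_zero, add_zero, Ico_self, Finset.sum_empty]
      exact sum_Ico_int _ h1
    | succ n ih =>
      intro hn
      have hn' : c + (n : ℤ) + 1 ≤ d := by push_cast at hn; omega
      have e1 : c + ((n + 1 : ℕ) : ℤ) = (c + n) + 1 := by push_cast; ring
      rw [e1, Hy _ _ (by omega), Hy _ _ (by omega), ih (by omega)]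
      have k1 := hh x (c + n) h1 h2 (by omega) (by omega)
      have k2 := hv x (c + n) h1 (by omega) (by omega) (by omega)
      simp only [hdx, hdy]
      have e2 : 2 * (x + 1) = 2 * x + 2 := by ring
      have e3 : 2 * (c + (n : ℤ) + 1) = 2 * (c + n) + 2 := by ring
      rw [e2, e3]
      have k1' : g (2 * x + 2, 2 * (c + n)) = g (2 * x + 1, 2 * (c + n)) +
        g (2 * x + 2, 2 * (c + n) + 1) - g (2 * x + 1, 2 * (c + n) + 1) := by rw [k1]; abel
      have k2' : g (2 * x, 2 * (c + n) + 2) = g (2 * x + 1, 2 * (c + n) + 2) +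
        g (2 * x, 2 * (c + n) + 1) - g (2 * x + 1, 2 * (c + n) + 1) := by rw [← k2]; abel
      rw [k1', k2']
      abel
  have Hx' : ∀ x y : ℤ, a ≤ x → x + 1 ≤ b → c ≤ y → y ≤ d → H (x + 1) y = H x y + dx x y := by
    intro x y h1 h2 h3 h4
    obtain ⟨n, hn⟩ := Int.eq_ofNat_of_zero_le (show 0 ≤ y - c by omega)
    have : y = c + n := by omega
    rw [this]
    exact Hx x h1 h2 n (by omega)
  refine ⟨fun v => H v.1 v.2, fun p =>
    if (a ≤ p.1 - 1 ∧ p.1 - 1 ≤ b) ∧ (c ≤ p.2 - 1 ∧ p.2 - 1 ≤ d) then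
      H (p.1 - 1) (p.2 - 1) - g (2 * (p.1 - 1) + 1, 2 * (p.2 - 1) + 1)
    else if (a ≤ p.1 ∧ p.1 ≤ b) ∧ (c ≤ p.2 - 1 ∧ p.2 - 1 ≤ d) then
      H p.1 (p.2 - 1) - g (2 * p.1, 2 * (p.2 - 1) + 1)
    else H (p.1 - 1) p.2 - g (2 * (p.1 - 1) + 1, 2 * p.2), ?_⟩
  intro e he
  rw [mem_Bx] at he
  obtain ⟨p, q⟩ := e
  simp only at he
  obtain ⟨⟨a1, a2⟩, ⟨a3, a4⟩, a5⟩ := he
  rcases Int.even_or_odd' p with ⟨x, hx | hx⟩ <;> rcases Int.even_or_odd' q with ⟨y, hy | hy⟩ <;>
    subst hx <;> subst hy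
  · omega
  · -- vertical edge
    obtain ⟨e1, e2, e3, e4⟩ := corners_v x y
    have hx1 : a ≤ x := by omega
    have hx2 : x ≤ b := by omega
    have hy1 : c ≤ y := by omega
    have hy2 : y + 1 ≤ d := by omega
    have k2 := hv x y hx1 hx2 hy1 hy2
    have kd := Hy x y hy1
    simp only [hdy] at kd
    intro c' hc'
    rw [e1, e2, e3, e4] at hc'
    have v1 : vx (2 * x, 2 * y + 2) = (x, y + 1) ∧ fi (2 * x, 2 * y + 2) = (x, y + 1) := by
      unfold vx fi; constructor <;> ext <;> simp only <;> omega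
    have v2 : vx (2 * x + 1, 2 * y + 1) = (x, y) ∧ fi (2 * x + 1, 2 * y + 1) = (x + 1, y + 1) := by
      unfold vx fi; constructor <;> ext <;> simp only <;> omega
    have v3 : vx (2 * x + 1, 2 * y + 2) = (x, y + 1) ∧
        fi (2 * x + 1, 2 * y + 2) = (x + 1, y + 1) := by
      unfold vx fi; constructor <;> ext <;> simp only <;> omega
    have v4 : vx (2 * x, 2 * y + 1) = (x, y) ∧ fi (2 * x, 2 * y + 1) = (x, y + 1) := by
      unfold vx fi; constructor <;> ext <;> simp only <;> omega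
    -- value at the right face
    have fR : (a ≤ x + 1 - 1 ∧ x + 1 - 1 ≤ b) ∧ (c ≤ y + 1 - 1 ∧ y + 1 - 1 ≤ d) := by omega
    have r1 : x + 1 - 1 = x := by ring
    have r2 : y + 1 - 1 = y := by ring
    rcases hc' with h | h | h | h <;> rw [h]
    · rw [v1.1, v1.2]
      simp only [r2]
      by_cases hxa : a ≤ x - 1
      · rw [if_pos (by omega)]
        have k3 := hh (x - 1) y (by omega) (by omega) hy1 (by omega)
        have k4 := Hx' (x - 1) y (by omega) (by omega) hy1 (by omega)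
        simp only [hdx] at k4
        have r3 : x - 1 + 1 = x := by ring
        have r4 : 2 * (x - 1) + 2 = 2 * x := by ring
        rw [r4] at k3 k4
        rw [r3] at k4
        rw [kd, k4]
        have : g (2 * x, 2 * y) = g (2 * (x - 1) + 1, 2 * y) + g (2 * x, 2 * y + 1) -
          g (2 * (x - 1) + 1, 2 * y + 1) := by rw [k3]; abel
        rw [this]; abel
      · rw [if_neg (by omega), if_pos (by omega), kd]
        abel
    · rw [v2.1, v2.2]
      simp only
      rw [if_pos fR, r1, r2]; abel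
    · rw [v3.1, v3.2]
      simp only
      rw [if_pos fR, r1, r2, kd]
      have : g (2 * x, 2 * y + 2) = g (2 * x + 1, 2 * y + 2) + g (2 * x, 2 * y + 1) -
        g (2 * x + 1, 2 * y + 1) := by rw [← k2]; abel
      rw [this]; abel
    · rw [v4.1, v4.2]
      simp only [r2]
      by_cases hxa : a ≤ x - 1
      · rw [if_pos (by omega)]
        have k3 := hh (x - 1) y (by omega) (by omega) hy1 (by omega)
        have k4 := Hx' (x - 1) y (by omega) (by omega) hy1 (by omega)
        simp only [hdx] at k4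
        have r3 : x - 1 + 1 = x := by ring
        have r4 : 2 * (x - 1) + 2 = 2 * x := by ring
        rw [r4] at k3 k4
        rw [r3] at k4
        rw [k4]
        have : g (2 * x, 2 * y) = g (2 * (x - 1) + 1, 2 * y) + g (2 * x, 2 * y + 1) -
          g (2 * (x - 1) + 1, 2 * y + 1) := by rw [k3]; abel
        rw [this]; abel
      · rw [if_neg (by omega), if_pos (by omega)]
        abel
  · -- horizontal edge
    obtain ⟨e1, e2, e3, e4⟩ := corners_h x y
    have hx1 : a ≤ x := by omega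
    have hx2 : x + 1 ≤ b := by omega
    have hy1 : c ≤ y := by omega
    have hy2 : y ≤ d := by omega
    have k1 := hh x y hx1 hx2 hy1 hy2
    have kd := Hx' x y hx1 hx2 hy1 hy2
    simp only [hdx] at kd
    intro c' hc'
    rw [e1, e2, e3, e4] at hc'
    have v1 : vx (2 * x + 1, 2 * y) = (x, y) ∧ fi (2 * x + 1, 2 * y) = (x + 1, y) := by
      unfold vx fi; constructor <;> ext <;> simp only <;> omega
    have v2 : vx (2 * x + 2, 2 * y + 1) = (x + 1, y) ∧
        fi (2 * x + 2, 2 * y + 1) = (x + 1, y + 1) := by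
      unfold vx fi; constructor <;> ext <;> simp only <;> omega
    have v3 : vx (2 * x + 1, 2 * y + 1) = (x, y) ∧
        fi (2 * x + 1, 2 * y + 1) = (x + 1, y + 1) := by
      unfold vx fi; constructor <;> ext <;> simp only <;> omega
    have v4 : vx (2 * x + 2, 2 * y) = (x + 1, y) ∧ fi (2 * x + 2, 2 * y) = (x + 1, y) := by
      unfold vx fi; constructor <;> ext <;> simp only <;> omega
    have fU : (a ≤ x + 1 - 1 ∧ x + 1 - 1 ≤ b) ∧ (c ≤ y + 1 - 1 ∧ y + 1 - 1 ≤ d) := by omega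
    have r1 : x + 1 - 1 = x := by ring
    have r2 : y + 1 - 1 = y := by ring
    have kU : g (2 * x + 2, 2 * y) = g (2 * x + 1, 2 * y) + g (2 * x + 2, 2 * y + 1) -
        g (2 * x + 1, 2 * y + 1) := by rw [k1]; abel
    -- the lower face
    have low : ∀ (hyc : c ≤ y - 1), H x (y - 1) - g (2 * x + 1, 2 * (y - 1) + 1) =
        H x y - g (2 * x + 1, 2 * y) := by
      intro hyc
      have k3 := hv x (y - 1) (by omega) (by omega) hyc (by omega)
      have k4 := Hy x (y - 1) hyc
      simp only [hdy] at k4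
      have r3 : y - 1 + 1 = y := by ring
      have r4 : 2 * (y - 1) + 2 = 2 * y := by ring
      rw [r4] at k3 k4
      rw [r3] at k4
      rw [k4]
      have : g (2 * x, 2 * y) = g (2 * x + 1, 2 * y) + g (2 * x, 2 * (y - 1) + 1) -
        g (2 * x + 1, 2 * (y - 1) + 1) := by rw [← k3]; abel
      rw [this]; abel
    rcases hc' with h | h | h | h <;> rw [h]
    · rw [v1.1, v1.2]
      simp only [r1]
      by_cases hyc : c ≤ y - 1
      · rw [if_pos (by omega), low hyc]; abel
      · rw [if_neg (by omega), if_neg (by omega)]; abel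
    · rw [v2.1, v2.2]
      simp only
      rw [if_pos fU, r1, r2, kd, kU]; abel
    · rw [v3.1, v3.2]
      simp only
      rw [if_pos fU, r1, r2]; abel
    · rw [v4.1, v4.2]
      simp only [r1]
      by_cases hyc : c ≤ y - 1
      · rw [if_pos (by omega), low hyc, kd]; abel
      · rw [if_neg (by omega), if_neg (by omega), kd]; abel
  · omega

/-- `Hv`, `Hf` is a primitive of the increments of the environment on the rectangle. -/
def Env.Prim (X : Env) (a b c d : ℤ) (Hv Hf : ℤ × ℤ → ℂ) : Prop :=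
  ∀ e ∈ Bx a b c d, PrimAt X.inc Hv Hf e

theorem Env.exists_prim (X : Env) {a b c d : ℤ} (h : Bx a b c d ⊆ X.E) :
    ∃ Hv Hf : ℤ × ℤ → ℂ, X.Prim a b c d Hv Hf :=
  Q1.exists_prim X.inc a b c d (fun _ he => X.closed (h he))

end Pool.Agent.Q1
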