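import Mathlib
import Pool.Agent.H69.Q1.Orbit
import Pool.Agent.H75.Perc.Dom
import Pool.Agent.H39.Q1.Sides

set_option autoImplicit false
open Finset

/-! # Total turning of a loop whose face is joined to infinity

`DCo w f g` : the faces `f`, `g` are joined by closed dual edges (no bounding box). `total_outer`: if
the face of `c` is joined, off `w`, to a face lower than all vertices of the cluster of `vx c`, then the
loop of `c` in the configuration `w` has total turning `4`. -/

namespace Pool.Agent.Q1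

open Pool.Agent.H75.Perc Pool.Agent.H75.TwoArm Pool.Agent.H75.Four Pool.Agent.H69.Q1
open Pool.Agent.H75.TwoArm.StrandAux hiding vx_nxC

/-- dual connection off `w` (faces in face indices) -/
def DCo (w : Finset (ℤ × ℤ)) (f g : ℤ × ℤ) : Prop := ∃ F : Finset (ℤ × ℤ), Co (du F w) f g

lemma DCo.refl (w : Finset (ℤ × ℤ)) (f : ℤ × ℤ) : DCo w f f := ⟨∅, Co.refl _ _⟩

lemma DCo.symm {w : Finset (ℤ × ℤ)} {f g : ℤ × ℤ} (h : DCo w f g) : DCo w g f := by
  obtain ⟨F, hF⟩ := h
  exact ⟨F, hF.symm⟩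

lemma DCo.trans {w : Finset (ℤ × ℤ)} {f g k : ℤ × ℤ} (h : DCo w f g) (h' : DCo w g k) :
    DCo w f k := by
  obtain ⟨F, hF⟩ := h
  obtain ⟨F', hF'⟩ := h'
  exact ⟨F ∪ F', (hF.mono (du_mono_left subset_union_left)).trans
    (hF'.mono (du_mono_left subset_union_right))⟩

lemma DCo.anti {w w' : Finset (ℤ × ℤ)} (h : w' ⊆ w) {f g : ℤ × ℤ} (hc : DCo w f g) :
    DCo w' f g := by
  obtain ⟨F, hF⟩ := hc
  exact ⟨F, hF.mono (du_anti h)⟩

lemma DCo.step {w : Finset (ℤ × ℤ)} {f g : ℤ × ℤ} (h : IsUnit4 (g - f))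
    (hl : f + g - (1, 1) ∉ w) : DCo w f g := by
  refine ⟨{f + g - (1, 1)}, Relation.ReflTransGen.single ⟨h, ?_⟩⟩
  unfold du
  rw [mem_map]
  refine ⟨f + g - (1, 1), mem_sdiff.2 ⟨mem_singleton_self _, hl⟩, ?_⟩
  show ((f + g - (1, 1)).1 + 1, (f + g - (1, 1)).2 + 1) = f + g
  refine Prod.ext ?_ ?_ <;> simp

/-- vertical dual path -/
lemma dco_vert {w : Finset (ℤ × ℤ)} {i j : ℤ} (n : ℕ)
    (h : ∀ k : ℤ, j ≤ k → k < j + n → ((2 * i - 1, 2 * k) : ℤ × ℤ) ∉ w) :
    DCo w (i, j) (i, j + n) := by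
  induction n with
  | zero => simpa using DCo.refl w (i, j)
  | succ n ih =>
    refine (ih fun k h1 h2 => h k h1 (by push_cast; omega)).trans ?_
    apply DCo.step
    · right; left
      refine Prod.ext ?_ ?_
      · simp
      · simp only [Prod.snd_sub]; push_cast; ring
    · have := h (j + n) (by omega) (by push_cast; omega)
      have e : ((i, j + (n : ℤ)) : ℤ × ℤ) + (i, j + ((n + 1 : ℕ) : ℤ)) - (1, 1) =
          (2 * i - 1, 2 * (j + n)) := by
        refine Prod.ext ?_ ?_
        · simp only [Prod.fst_sub, Prod.fst_add]; ring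
        · simp only [Prod.snd_sub, Prod.snd_add]; push_cast; ring
      rw [e]; exact this

/-- horizontal dual path -/
lemma dco_horiz {w : Finset (ℤ × ℤ)} {i j : ℤ} (n : ℕ)
    (h : ∀ k : ℤ, ((2 * k, 2 * j - 1) : ℤ × ℤ) ∉ w) :
    DCo w (i, j) (i + n, j) := by
  induction n with
  | zero => simpa using DCo.refl w (i, j)
  | succ n ih =>
    refine ih.trans ?_
    apply DCo.step
    · left
      refine Prod.ext ?_ ?_
      · simp only [Prod.fst_sub]; push_cast; ring
      · simp
    · have := h (i + n)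
      have e : ((i + (n : ℤ), j) : ℤ × ℤ) + (i + ((n + 1 : ℕ) : ℤ), j) - (1, 1) =
          (2 * (i + n), 2 * j - 1) := by
        refine Prod.ext ?_ ?_
        · simp only [Prod.fst_sub, Prod.fst_add]; push_cast; ring
        · simp only [Prod.snd_sub, Prod.snd_add]; ring
      rw [e]; exact this

lemma dco_horiz' {w : Finset (ℤ × ℤ)} {i i' j : ℤ}
    (h : ∀ k : ℤ, ((2 * k, 2 * j - 1) : ℤ × ℤ) ∉ w) : DCo w (i, j) (i', j) := by
  rcases le_total i i' with h1 | h1
  · obtain ⟨n, hn⟩ := Int.le.dest h1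
    rw [← hn]; exact dco_horiz n h
  · obtain ⟨n, hn⟩ := Int.le.dest h1
    rw [← hn]; exact (dco_horiz n h).symm

/-- the vertices of the label `e` are `eu e`, `ev e`; a corner whose next label is `e` lies at one of
them -/
lemma vx_of_lab {z : ℤ × ℤ} : vx z = eu (lab z) ∨ vx z = ev (lab z) := by
  have he := odd_lab z
  obtain ⟨-, -, -, -, hvu, hvv⟩ := opc_zu he
  rcases eq_zu_or_zv he rfl with h2 | h2
  · left; rw [← hvu, ← h2]
  · right; rw [← hvv, ← h2]

/-- the iterates only see the labels of the cluster -/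
lemma iter_cluster {w w' : Finset (ℤ × ℤ)} {c : ℤ × ℤ} (hw : w' ⊆ w)
    (h : ∀ z, Co w (vx c) (vx z) → lab z ∈ w → lab z ∈ w') (i : ℕ) :
    (nx w')^[i] c = (nx w)^[i] c := by
  induction i with
  | zero => rfl
  | succ i ih =>
    rw [Function.iterate_succ_apply', Function.iterate_succ_apply', ih]
    have h1 := co_orb w c i
    generalize (nx w)^[i] c = z at h1
    unfold nx
    by_cases h2 : lab z ∈ w
    · rw [if_pos h2, if_pos (h _ h1 h2)]
    · rw [if_neg h2, if_neg (fun h3 => h2 (hw h3))]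

/-- the corner below and to the left of the vertex `v` -/
lemma low_corner (v : ℤ × ℤ) : vx (2 * v.1, 2 * v.2) = v ∧ fi (2 * v.1, 2 * v.2) = v ∧
    ty (2 * v.1, 2 * v.2) = 0 ∧ lab (2 * v.1, 2 * v.2) = (2 * v.1, 2 * v.2 - 1) := by
  refine ⟨?_, ?_, ?_⟩
  · unfold vx; refine Prod.ext ?_ ?_ <;> simp only <;> omega
  · unfold fi; refine Prod.ext ?_ ?_ <;> simp only <;> omega
  · rcases ty_cases ((2 * v.1, 2 * v.2) : ℤ × ℤ) with ⟨h0, h1, h2, h3, h4, h5⟩ |
      ⟨h0, h1, h2, h3, h4, h5⟩ | ⟨h0, h1, h2, h3, h4, h5⟩ | ⟨h0, h1, h2, h3, h4, h5⟩ <;>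
    simp only at h1 h2
    · exact ⟨h0, h3⟩
    · omega
    · omega
    · omega

/-- total turning `4` of a loop which contains the corner below its lowest vertex -/
lemma total_low {w : Finset (ℤ × ℤ)} {v : ℤ × ℤ}
    (hmin : ∀ i, v.2 ≤ (vx ((nx w)^[i] (2 * v.1, 2 * v.2))).2)
    (hl : ((2 * v.1, 2 * v.2 - 1) : ℤ × ℤ) ∉ w) {L : ℕ}
    (hO : Orb (nx w) (2 * v.1, 2 * v.2) L) (k0 : ℤ) :
    KK (nx w) (del w) (2 * v.1, 2 * v.2) k0 L = k0 + 4 := by
  obtain ⟨hvc, -, hty, hlab⟩ := low_corner v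
  set c : ℤ × ℤ := (2 * v.1, 2 * v.2) with hc
  have hl' : lab c ∉ w := by rw [hlab]; exact hl
  have hp := isPath_explore w c 0 (by rw [hty]; rfl)
  have hL := orb_ge_three hO
  have hkL := kk_mod w c 0 (by rw [hty]; rfl) L
  rw [hO.per, hty] at hkL
  have s0 : sg w c 0 0 = 0 := by rw [sg_of_closed (by simpa using hl')]; rfl
  have sL : sg w c 0 L = kk w c 0 L := sg_of_closed (by rw [hO.per]; exact hl')
  have hdir : dir (sg w c 0 L) = dir (sg w c 0 0) := by
    rw [dir_eq_iff, s0, sL, hkL]; rfl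
  have hfin := turning_four_N _ _ hp L hL hO.add hO.inj hdir (by rw [s0]; rfl) (by
    intro b
    have h1 := hmin b
    simp only [Function.iterate_zero, id_eq]
    have e0 : c.2 = 2 * v.2 := by rw [hc]
    unfold vx at h1
    simp only at h1
    omega)
  rw [s0, sL, kk_eq_KK] at hfin
  have hs := KK_shift (nx w) (del w) c 0 k0 L
  rw [hs]
  omega

/-- **Total turning `4`**: the face of `c` is joined, off `w`, to a face below all vertices of the
cluster of `c`. -/
theorem total_outer {w : Finset (ℤ × ℤ)} {c g : ℤ × ℤ} (hd : DCo w (fi c) g)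
    (hg : ∀ v, Co w (vx c) v → g.2 < v.2) {L : ℕ} (hO : Orb (nx w) c L) (k0 : ℤ) :
    KK (nx w) (del w) c k0 L = k0 + 4 := by
  classical
  -- the finite set of the vertices of the cluster
  set A : Finset (ℤ × ℤ) := (insert (vx c) (w.image eu ∪ w.image ev)).filter
    (fun v => Co w (vx c) v) with hA
  have hAm : ∀ v, Co w (vx c) v → v ∈ A := by
    intro v hv
    rw [hA, mem_filter]
    refine ⟨?_, hv⟩
    rcases Relation.ReflTransGen.cases_tail hv with h | ⟨u, -, h⟩
    · rw [← h]; exact mem_insert_self _ _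
    · rw [mem_insert, mem_union, mem_image, mem_image]
      rcases ends_of_add h.1 rfl with h1 | h1
      · exact Or.inr (Or.inr ⟨_, h.2, h1.2.symm⟩)
      · exact Or.inr (Or.inl ⟨_, h.2, h1.2.symm⟩)
  obtain ⟨v, hv, hmin⟩ := Finset.exists_min_image A (fun v => v.2) ⟨_, hAm _ (Co.refl _ _)⟩
  have hvC : Co w (vx c) v := (mem_filter.1 hv).2
  -- the labels of the cluster
  set w' : Finset (ℤ × ℤ) := w.filter (fun e => (e.1 + e.2) % 2 = 1 ∧
    (Co w (vx c) (eu e) ∨ Co w (vx c) (ev e))) with hw'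
  have hw'w : w' ⊆ w := filter_subset _ _
  have hin : ∀ z, Co w (vx c) (vx z) → lab z ∈ w → lab z ∈ w' := by
    intro z h1 h2
    rw [hw', mem_filter]
    refine ⟨h2, odd_lab z, ?_⟩
    rcases vx_of_lab (z := z) with h3 | h3
    · left; rw [← h3]; exact h1
    · right; rw [← h3]; exact h1
  have hlow : ∀ e ∈ w', 2 * v.2 ≤ e.2 := by
    intro e he
    rw [hw', mem_filter] at he
    obtain ⟨hew, hodd, he⟩ := he
    have hun : IsUnit4 (ev e - eu e) ∧ eu e + ev e = e := by
      unfold IsUnit4 eu ev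
      simp only [Prod.ext_iff, Prod.fst_sub, Prod.snd_sub, Prod.fst_add, Prod.snd_add]
      omega
    have had : Ad w (eu e) (ev e) := ⟨hun.1, by rw [hun.2]; exact hew⟩
    have hboth : Co w (vx c) (eu e) ∧ Co w (vx c) (ev e) := by
      rcases he with h | h
      · exact ⟨h, h.tail had⟩
      · exact ⟨h.trans (Co.symm (Relation.ReflTransGen.single had)), h⟩
    have h1 := hmin _ (hAm _ hboth.1)
    have h2 := hmin _ (hAm _ hboth.2)
    have h3 := congrArg Prod.snd hun.2
    simp only [Prod.snd_add] at h3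
    omega
  have hcow : Co w' (vx c) v := by
    have : ∀ u, Co w (vx c) u → Co w' (vx c) u := by
      intro u hu
      induction hu with
      | refl => exact Co.refl _ _
      | @tail a b hab hb ih =>
        refine ih.tail ⟨hb.1, ?_⟩
        rw [hw', mem_filter]
        refine ⟨hb.2, ?_, ?_⟩
        · have := unit_cases hb.1
          simp only [Prod.fst_add, Prod.snd_add]
          omega
        · rcases ends_of_add hb.1 rfl with h1 | h1
          · left; rw [← h1.1]; exact hab
          · right; rw [← h1.1]; exact hab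
    exact this v hvC
  -- the dual path
  have hgv : g.2 < v.2 := hg v hvC
  have hd' : DCo w' (fi c) v := by
    refine (hd.anti hw'w).trans ?_
    have e1 : DCo w' g (v.1, g.2) := by
      have : g = (g.1, g.2) := rfl
      rw [this]
      apply dco_horiz'
      intro k hk
      have := hlow _ hk
      simp only at this
      omega
    have e2 : DCo w' (v.1, g.2) v := by
      obtain ⟨n, hn⟩ := Int.le.dest hgv.le
      have : DCo w' (v.1, g.2) (v.1, g.2 + n) := by
        apply dco_vert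
        intro k h1 h2 hk
        have := hlow _ hk
        simp only at this
        omega
      rw [hn] at this
      exact this
    exact e1.trans e2
  obtain ⟨hvc, hfc, hty, hlab⟩ := low_corner v
  obtain ⟨F, hF⟩ := hd'
  have hio : InOrb (nx w') c (2 * v.1, 2 * v.2) := by
    refine inOrb_of_co w' (E := F) ?_ ?_
    · rw [hvc]; exact hcow
    · rw [hfc]; exact hF
  obtain ⟨i, hi⟩ := hio
  rw [iter_cluster hw'w hin] at hi
  obtain ⟨hO', hK⟩ := hO.rotate (nx_injective w) (del w) k0 i
  rw [hi] at hO' hK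
  rw [← hK]
  refine total_low ?_ ?_ hO' k0
  · intro j
    rw [← hi, ← Function.iterate_add_apply]
    exact hmin _ (hAm _ (co_orb w c (j + i)))
  · intro h
    have h1 : lab (2 * v.1, 2 * v.2) ∈ w' := by
      refine hin _ ?_ (by rw [hlab]; exact h)
      rw [hvc]; exact hvC
    rw [hlab] at h1
    have := hlow _ h1
    simp only at this
    omega

end Pool.Agent.Q1
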