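import Mathlib
import Pool.Agent.Q1.Env
import Pool.Agent.Q1.Outer

set_option autoImplicit false
open Finset

/-! # Plane environments

`Env.plane E W c0 k0` : random labels `E`, wired labels `W`, all other labels closed; root corner `c0`
whose face is joined to infinity by closed labels. The step map is `nx (ω ∪ W)`. -/

namespace Pool.Agent.Q1

open Pool.Agent.H75.Perc Pool.Agent.H75.TwoArm Pool.Agent.H75.Four Pool.Agent.H69.Q1
open Pool.Agent.H75.TwoArm.StrandAux hiding vx_nxC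

/-- corners of a plane environment: corners at the vertices of `G` and at the vertex `v` -/
noncomputable def PS (G : Finset (ℤ × ℤ)) (v : ℤ × ℤ) : Finset (ℤ × ℤ) :=
  (insert v (G.image eu ∪ G.image ev)).biUnion four

lemma mem_PS {G : Finset (ℤ × ℤ)} {v z : ℤ × ℤ} :
    z ∈ PS G v ↔ vx z ∈ insert v (G.image eu ∪ G.image ev) := by
  unfold PS
  rw [mem_biUnion]
  constructor
  · rintro ⟨u, hu, hz⟩
    rw [mem_four] at hz
    rw [hz]; exact hu
  · intro h
    exact ⟨_, h, mem_four.2 rfl⟩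

lemma PS_of_lab {G : Finset (ℤ × ℤ)} {v z : ℤ × ℤ} (h : lab z ∈ G) : z ∈ PS G v := by
  rw [mem_PS, mem_insert, mem_union, mem_image, mem_image]
  rcases vx_of_lab (z := z) with h1 | h1
  · exact Or.inr (Or.inl ⟨_, h, h1.symm⟩)
  · exact Or.inr (Or.inr ⟨_, h, h1.symm⟩)

lemma PS_nx {G w : Finset (ℤ × ℤ)} (hw : w ⊆ G) {v z : ℤ × ℤ} (h : z ∈ PS G v) :
    nx w z ∈ PS G v := by
  by_cases hl : lab z ∈ w
  · have h1 : nx w z = nxO z := by unfold nx; rw [if_pos hl]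
    have he := odd_lab z
    obtain ⟨ho, ho', -, -, hvu, hvv⟩ := opc_zu he
    rw [mem_PS, h1, (nxO_opc z).1, mem_insert, mem_union, mem_image, mem_image]
    rcases eq_zu_or_zv he rfl with h2 | h2
    · right; right
      refine ⟨lab z, hw hl, ?_⟩
      have h3 : opc z = zv (lab z) := by rw [← ho, ← h2]
      rw [h3, hvv]
    · right; left
      refine ⟨lab z, hw hl, ?_⟩
      have h3 : opc z = zu (lab z) := by rw [← ho', ← h2]
      rw [h3, hvu]
  · have h1 : nx w z = nxC z := by unfold nx; rw [if_neg hl]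
    rw [mem_PS, h1, Pool.Agent.H75.TwoArm.StrandAux.vx_nxC]
    exact mem_PS.1 h

/-- on the corners of the environment the step map is `nx (ω ∪ W)` -/
lemma stp_plane {E W : Finset (ℤ × ℤ)} (hd : Disjoint E W) (v : ℤ × ℤ) {ω : Finset (ℤ × ℤ)}
    (hω : ω ⊆ E) {c : ℤ × ℤ} (hc : c ∈ PS (E ∪ W) v) :
    stp E (PS (E ∪ W) v) (nx W) ω c = nx (ω ∪ W) c := by
  unfold stp
  rw [if_pos hc]
  by_cases h : lab c ∈ E
  · rw [if_pos h]
    unfold nx
    by_cases h1 : lab c ∈ ω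
    · rw [if_pos h1, if_pos (mem_union_left _ h1)]
    · rw [if_neg h1, if_neg]
      rw [mem_union, not_or]
      exact ⟨h1, disjoint_left.1 hd h⟩
  · rw [if_neg h]
    unfold nx
    by_cases h1 : lab c ∈ W
    · rw [if_pos h1, if_pos (mem_union_right _ h1)]
    · rw [if_neg h1, if_neg]
      rw [mem_union, not_or]
      exact ⟨fun h2 => h (hω h2), h1⟩

lemma tur_plane {E W : Finset (ℤ × ℤ)} (hd : Disjoint E W) (v : ℤ × ℤ) {ω : Finset (ℤ × ℤ)}
    (hω : ω ⊆ E) {c : ℤ × ℤ} (hc : c ∈ PS (E ∪ W) v) :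
    tur E (PS (E ∪ W) v) (del W) ω c = del (ω ∪ W) c := by
  unfold tur
  rw [if_pos hc]
  by_cases h : lab c ∈ E
  · rw [if_pos h]
    unfold del
    by_cases h1 : lab c ∈ ω
    · rw [if_pos h1, if_pos (mem_union_left _ h1)]
    · rw [if_neg h1, if_neg]
      rw [mem_union, not_or]
      exact ⟨h1, disjoint_left.1 hd h⟩
  · rw [if_neg h]
    unfold del
    by_cases h1 : lab c ∈ W
    · rw [if_pos h1, if_pos (mem_union_right _ h1)]
    · rw [if_neg h1, if_neg]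
      rw [mem_union, not_or]
      exact ⟨fun h2 => h (hω h2), h1⟩

lemma iter_plane {E W : Finset (ℤ × ℤ)} (hd : Disjoint E W) (v : ℤ × ℤ) {ω : Finset (ℤ × ℤ)}
    (hω : ω ⊆ E) {c : ℤ × ℤ} (hc : c ∈ PS (E ∪ W) v) (i : ℕ) :
    (stp E (PS (E ∪ W) v) (nx W) ω)^[i] c = (nx (ω ∪ W))^[i] c ∧
      (nx (ω ∪ W))^[i] c ∈ PS (E ∪ W) v := by
  induction i with
  | zero => exact ⟨rfl, hc⟩
  | succ i ih =>
    rw [Function.iterate_succ_apply', Function.iterate_succ_apply', ih.1,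
      stp_plane hd v hω ih.2]
    exact ⟨rfl, PS_nx (union_subset_union_left hω) ih.2⟩

lemma KK_plane {E W : Finset (ℤ × ℤ)} (hd : Disjoint E W) (v : ℤ × ℤ) {ω : Finset (ℤ × ℤ)}
    (hω : ω ⊆ E) {c : ℤ × ℤ} (hc : c ∈ PS (E ∪ W) v) (k0 : ℤ) (i : ℕ) :
    KK (stp E (PS (E ∪ W) v) (nx W) ω) (tur E (PS (E ∪ W) v) (del W) ω) c k0 i =
      KK (nx (ω ∪ W)) (del (ω ∪ W)) c k0 i := by
  induction i with
  | zero => rw [KK_zero, KK_zero]
  | succ i ih =>
    rw [KK_succ, KK_succ, ih, (iter_plane hd v hω hc i).1,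
      tur_plane hd v hω (iter_plane hd v hω hc i).2]

lemma orb_plane {E W : Finset (ℤ × ℤ)} (hd : Disjoint E W) (v : ℤ × ℤ) {ω : Finset (ℤ × ℤ)}
    (hω : ω ⊆ E) {c : ℤ × ℤ} (hc : c ∈ PS (E ∪ W) v) {L : ℕ} :
    Orb (stp E (PS (E ∪ W) v) (nx W) ω) c L ↔ Orb (nx (ω ∪ W)) c L := by
  constructor
  · intro h
    refine ⟨h.pos, ?_, ?_⟩
    · rw [← (iter_plane hd v hω hc L).1]; exact h.per
    · intro i j hij hj
      rw [← (iter_plane hd v hω hc i).1, ← (iter_plane hd v hω hc j).1]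
      exact h.inj i j hij hj
  · intro h
    refine ⟨h.pos, ?_, ?_⟩
    · rw [(iter_plane hd v hω hc L).1]; exact h.per
    · intro i j hij hj
      rw [(iter_plane hd v hω hc i).1, (iter_plane hd v hω hc j).1]
      exact h.inj i j hij hj

/-- **The plane environment.** `hg`: the face of the root corner is joined, off `E ∪ W`, to a face
below all vertices of the cluster of `vx c0` in `E ∪ W`. -/
noncomputable def Env.plane (E W : Finset (ℤ × ℤ)) (c0 : ℤ × ℤ) (k0 : ℤ) (g : ℤ × ℤ)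
    (hE : ∀ e ∈ E, (e.1 + e.2) % 2 = 1) (hd : Disjoint E W) (hk : k0 % 4 = ty c0)
    (hroot : plab c0 ∉ E) (hg : DCo (E ∪ W) (fi c0) g)
    (hlow : ∀ v, Co (E ∪ W) (vx c0) v → g.2 < v.2) : Env where
  E := E
  S := PS (E ∪ W) (vx c0)
  out := nx W
  dout := del W
  c0 := c0
  k0 := k0
  T := 4
  odd := hE
  c0_mem := by rw [mem_PS]; exact mem_insert_self _ _
  in_mem := fun c h => PS_of_lab (mem_union_left _ h)
  maps := by
    intro ω hω c hc
    rw [stp_plane hd _ hω hc]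
    exact PS_nx (union_subset_union_left hω) hc
  inj := by
    intro ω hω a ha b hb hab
    rw [stp_plane hd _ hω (mem_coe.1 ha), stp_plane hd _ hω (mem_coe.1 hb)] at hab
    exact nx_injective _ hab
  hk0 := hk
  typed := by
    intro c hc _
    have h1 : ty c % 4 = ty c := by
      rcases ty_cases c with h | h | h | h <;> rw [h.1] <;> norm_num
    exact ty_nx W _ _ h1
  root := by
    intro c hc h
    apply hroot
    rw [← h]
    have h1 : nx ∅ c = nxC c := by unfold nx; rw [if_neg (notMem_empty _)]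
    have h2 := lab_pv ∅ (nxC c)
    rw [← h1, pv_nx] at h2
    rw [← h1, ← h2]; exact hc
  total := by
    intro ω hω L hO
    have hc : c0 ∈ PS (E ∪ W) (vx c0) := by rw [mem_PS]; exact mem_insert_self _ _
    rw [KK_plane hd _ hω hc]
    have hsub : ω ∪ W ⊆ E ∪ W := union_subset_union_left hω
    exact total_outer (hg.anti hsub) (fun v hv => hlow v (hv.mono hsub))
      ((orb_plane hd _ hω hc).1 hO) k0

section api

variable {E W : Finset (ℤ × ℤ)} {c0 : ℤ × ℤ} {k0 : ℤ} {g : ℤ × ℤ}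
    {hE : ∀ e ∈ E, (e.1 + e.2) % 2 = 1} {hd : Disjoint E W} {hk : k0 % 4 = ty c0}
    {hroot : plab c0 ∉ E} {hg : DCo (E ∪ W) (fi c0) g}
    {hlow : ∀ v, Co (E ∪ W) (vx c0) v → g.2 < v.2}


@[simp] lemma plane_E : (Env.plane E W c0 k0 g hE hd hk hroot hg hlow).E = E := rfl
@[simp] lemma plane_c0 : (Env.plane E W c0 k0 g hE hd hk hroot hg hlow).c0 = c0 := rfl
@[simp] lemma plane_k0 : (Env.plane E W c0 k0 g hE hd hk hroot hg hlow).k0 = k0 := rfl
@[simp] lemma plane_T : (Env.plane E W c0 k0 g hE hd hk hroot hg hlow).T = 4 := rfl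

lemma plane_c0_mem : c0 ∈ PS (E ∪ W) (vx c0) := by rw [mem_PS]; exact mem_insert_self _ _

lemma plane_z {ω : Finset (ℤ × ℤ)} (hω : ω ⊆ E) (i : ℕ) :
    (Env.plane E W c0 k0 g hE hd hk hroot hg hlow).z ω i = (nx (ω ∪ W))^[i] c0 :=
  (iter_plane hd _ hω plane_c0_mem i).1

lemma plane_K {ω : Finset (ℤ × ℤ)} (hω : ω ⊆ E) (i : ℕ) :
    (Env.plane E W c0 k0 g hE hd hk hroot hg hlow).K ω i = KK (nx (ω ∪ W)) (del (ω ∪ W)) c0 k0 i :=
  KK_plane hd _ hω plane_c0_mem k0 i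

lemma plane_orb {ω : Finset (ℤ × ℤ)} (hω : ω ⊆ E) :
    Orb (nx (ω ∪ W)) c0 ((Env.plane E W c0 k0 g hE hd hk hroot hg hlow).len ω) :=
  (orb_plane hd _ hω plane_c0_mem).1 (Env.orb (X := Env.plane E W c0 k0 g hE hd hk hroot hg hlow) hω)

lemma plane_len {ω : Finset (ℤ × ℤ)} (hω : ω ⊆ E) :
    (Env.plane E W c0 k0 g hE hd hk hroot hg hlow).len ω = Function.minimalPeriod (nx (ω ∪ W)) c0 :=
  (plane_orb hω).minimalPeriod.symm

end api

end Pool.Agent.Q1
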