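import Mathlib
import Pool.Agent.H99.NC.PrP

set_option autoImplicit false
open Finset

/-! Complex expectations: sums over the subsets of a finite set with (complex) product weights. -/

namespace Pool.Agent.Q1

open Pool.Agent.H75.Perc Pool.Agent.H99.NC

variable {α : Type*} [DecidableEq α]

/-- complex weight of the configuration `ω` in `E` -/
noncomputable def wtc (q : α → ℂ) (E ω : Finset α) : ℂ := (∏ e ∈ ω, q e) * ∏ e ∈ E \ ω, (1 - q e)

/-- complex expectation -/
noncomputable def Ec (q : α → ℂ) (E : Finset α) (F : Finset α → ℂ) : ℂ :=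
  ∑ ω ∈ E.powerset, wtc q E ω * F ω

@[simp] lemma Ec_empty (q : α → ℂ) (F : Finset α → ℂ) : Ec q ∅ F = F ∅ := by simp [Ec, wtc]

lemma wtc_insert0 {q : α → ℂ} {E ω : Finset α} {e : α} (he : e ∉ E) (hω : ω ⊆ E) :
    wtc q (insert e E) ω = (1 - q e) * wtc q E ω := by
  unfold wtc
  have h1 : insert e E \ ω = insert e (E \ ω) := by
    rw [insert_sdiff_of_notMem _ (fun h => he (hω h))]
  rw [h1, prod_insert (fun h => he (mem_sdiff.1 h).1)]
  ring

lemma wtc_insert1 {q : α → ℂ} {E ω : Finset α} {e : α} (he : e ∉ E) (hω : ω ⊆ E) :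
    wtc q (insert e E) (insert e ω) = q e * wtc q E ω := by
  unfold wtc
  have h1 : insert e E \ insert e ω = E \ ω := by
    ext x
    simp only [mem_sdiff, mem_insert]
    constructor
    · rintro ⟨h1 | h1, h2⟩
      · exact absurd (Or.inl h1) h2
      · exact ⟨h1, fun h => h2 (Or.inr h)⟩
    · rintro ⟨h1, h2⟩
      refine ⟨Or.inr h1, ?_⟩
      rintro (h | h)
      · rw [h] at h1; exact he h1
      · exact h2 h
  rw [h1, prod_insert (fun h => he (hω h))]
  ring

lemma Ec_insert (q : α → ℂ) {E : Finset α} {e : α} (he : e ∉ E) (F : Finset α → ℂ) :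
    Ec q (insert e E) F = (1 - q e) * Ec q E F + q e * Ec q E (fun ω => F (insert e ω)) := by
  unfold Ec
  rw [sum_powerset_insert he, mul_sum, mul_sum]
  congr 1
  · refine sum_congr rfl fun ω hω => ?_
    rw [wtc_insert0 he (mem_powerset.1 hω)]
    ring
  · refine sum_congr rfl fun ω hω => ?_
    rw [wtc_insert1 he (mem_powerset.1 hω)]
    ring

lemma Ec_add (q : α → ℂ) (E : Finset α) (F G : Finset α → ℂ) :
    Ec q E (fun ω => F ω + G ω) = Ec q E F + Ec q E G := by
  unfold Ec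
  rw [← sum_add_distrib]
  exact sum_congr rfl fun ω _ => by ring

lemma Ec_sub (q : α → ℂ) (E : Finset α) (F G : Finset α → ℂ) :
    Ec q E (fun ω => F ω - G ω) = Ec q E F - Ec q E G := by
  unfold Ec
  rw [← sum_sub_distrib]
  exact sum_congr rfl fun ω _ => by ring

lemma Ec_smul (q : α → ℂ) (E : Finset α) (c : ℂ) (F : Finset α → ℂ) :
    Ec q E (fun ω => c * F ω) = c * Ec q E F := by
  unfold Ec
  rw [mul_sum]
  exact sum_congr rfl fun ω _ => by ring

lemma Ec_sum {ι : Type*} (q : α → ℂ) (E : Finset α) (s : Finset ι) (F : ι → Finset α → ℂ) :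
    Ec q E (fun ω => ∑ i ∈ s, F i ω) = ∑ i ∈ s, Ec q E (F i) := by
  unfold Ec
  rw [sum_comm]
  exact sum_congr rfl fun ω _ => by rw [mul_sum]

lemma Ec_congr {q : α → ℂ} {E : Finset α} {F G : Finset α → ℂ} (h : ∀ ω, ω ⊆ E → F ω = G ω) :
    Ec q E F = Ec q E G :=
  sum_congr rfl fun ω hω => by rw [h ω (mem_powerset.1 hω)]

@[simp] lemma Ec_const (q : α → ℂ) (E : Finset α) (c : ℂ) : Ec q E (fun _ => c) = c := by
  induction E using Finset.induction_on with
  | empty => simp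
  | insert e E he ih => rw [Ec_insert q he, ih]; ring

lemma Ec_congr_q {q q' : α → ℂ} {E : Finset α} (h : ∀ e ∈ E, q e = q' e) (F : Finset α → ℂ) :
    Ec q E F = Ec q' E F := by
  refine sum_congr rfl fun ω hω => ?_
  rw [mem_powerset] at hω
  unfold wtc
  rw [prod_congr rfl (fun e he => h e (hω he)),
    prod_congr (s₁ := E \ ω) rfl (fun e he => by rw [h e (mem_sdiff.1 he).1])]

/-- Fubini for disjoint sets. -/
lemma Ec_union (q : α → ℂ) {E1 E2 : Finset α} (hd : Disjoint E1 E2) (F : Finset α → ℂ) :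
    Ec q (E1 ∪ E2) F = Ec q E1 (fun ω1 => Ec q E2 (fun ω2 => F (ω1 ∪ ω2))) := by
  induction E1 using Finset.induction_on generalizing F with
  | empty => simp
  | insert e E1 he ih =>
    rw [disjoint_insert_left] at hd
    have h1 : e ∉ E1 ∪ E2 := by
      rw [mem_union, not_or]
      exact ⟨he, hd.1⟩
    rw [insert_union, Ec_insert q h1, Ec_insert q he, ih hd.2, ih hd.2]
    simp only [insert_union]

lemma Ec_split (q : α → ℂ) {E E1 : Finset α} (h : E1 ⊆ E) (F : Finset α → ℂ) :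
    Ec q E F = Ec q E1 (fun ω1 => Ec q (E \ E1) (fun ω2 => F (ω1 ∪ ω2))) := by
  rw [← Ec_union q disjoint_sdiff, union_sdiff_of_subset h]

lemma Ec_swap (q q' : α → ℂ) (E E' : Finset α) (F : Finset α → Finset α → ℂ) :
    Ec q E (fun ω => Ec q' E' (fun ω' => F ω ω')) = Ec q' E' (fun ω' => Ec q E (fun ω => F ω ω')) := by
  unfold Ec
  simp only [mul_sum]
  rw [sum_comm]
  exact sum_congr rfl fun ω _ => sum_congr rfl fun ω' _ => by ring

/-- the expectation with real densities -/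
lemma Ec_norm {q : α → ℝ} (hq : Pb q) {E : Finset α} {F : Finset α → ℂ} {g : Finset α → ℝ}
    (h : ∀ ω, ω ⊆ E → ‖F ω‖ ≤ g ω) : ‖Ec (fun e => (q e : ℂ)) E F‖ ≤ Ex q E g := by
  unfold Ec Ex
  refine (norm_sum_le _ _).trans (sum_le_sum fun ω hω => ?_)
  have e1 : wtc (fun e => (q e : ℂ)) E ω = ((wt q E ω : ℝ) : ℂ) := by
    unfold wtc wt; push_cast; rfl
  rw [norm_mul, e1, Complex.norm_real, Real.norm_eq_abs, abs_of_nonneg (wt_nonneg hq _ _)]
  exact mul_le_mul_of_nonneg_left (h ω (mem_powerset.1 hω)) (wt_nonneg hq _ _)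

lemma Ec_half (E : Finset α) (F : Finset α → ℂ) :
    Ec (fun _ => (1 / 2 : ℂ)) E F = (1 / 2 : ℂ) ^ E.card * ∑ ω ∈ E.powerset, F ω := by
  unfold Ec
  rw [mul_sum]
  refine sum_congr rfl fun ω hω => ?_
  rw [mem_powerset] at hω
  unfold wtc
  rw [prod_const, prod_const]
  have h1 : (1 : ℂ) - 1 / 2 = 1 / 2 := by norm_num
  rw [h1, ← pow_add, card_sdiff_of_subset hω, Nat.add_sub_cancel' (card_le_card hω)]

/-- real form at `1/2` -/
lemma Ec_half_norm {E : Finset α} {F : Finset α → ℂ} {g : Finset α → ℝ}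
    (h : ∀ ω, ω ⊆ E → ‖F ω‖ ≤ g ω) :
    ‖Ec (fun _ => (1 / 2 : ℂ)) E F‖ ≤ Ex (fun _ => (1 / 2 : ℝ)) E g := by
  have h1 := Ec_norm (q := fun _ : α => (1 / 2 : ℝ)) (Pb.const (by norm_num) (by norm_num)) h
  have e1 : (fun e : α => (((fun _ : α => (1 / 2 : ℝ)) e : ℝ) : ℂ)) = fun _ => (1 / 2 : ℂ) := by
    funext e; push_cast; rfl
  rw [e1] at h1
  exact h1

end Pool.Agent.Q1
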