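import Mathlib
import Pool.Agent.Q1.Prim
import Pool.Agent.Q1.ExC

set_option autoImplicit false
open Finset

/-! Freezing coins: the Markov property of natural environments. -/

namespace Pool.Agent.Q1

open Pool.Agent.H75.Perc Pool.Agent.H75.TwoArm Pool.Agent.H99.NC

lemma ty_mod (c : ℤ × ℤ) : ty c % 4 = ty c := by
  rcases ty_cases c with h | h | h | h <;> rw [h.1] <;> rfl

namespace Env

/-- the step map after freezing the labels outside `E'` in the state `ω1` -/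
lemma stp_freeze (X : Env) (E' ω1 ω' : Finset (ℤ × ℤ)) (hω' : ω' ⊆ X.E ∩ E') (c : ℤ × ℤ) :
    stp (X.E ∩ E') X.S (fun c => if lab c ∈ X.E then nx ω1 c else X.out c) ω' c =
      X.f (ω' ∪ (ω1 ∩ (X.E \ E'))) c := by
  unfold f stp
  by_cases hc : c ∈ X.S
  · rw [if_pos hc, if_pos hc]
    by_cases hE : lab c ∈ X.E
    · by_cases hE' : lab c ∈ E'
      · rw [if_pos (mem_inter.2 ⟨hE, hE'⟩), if_pos hE]
        unfold nx
        have : lab c ∈ ω' ∪ ω1 ∩ (X.E \ E') ↔ lab c ∈ ω' := by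
          rw [mem_union, mem_inter, mem_sdiff]; tauto
        simp only [this]
      · rw [if_neg (fun h => hE' (mem_inter.1 h).2), if_pos hE]
        simp only [hE, if_true]
        unfold nx
        have h2 : lab c ∉ ω' := fun h => hE' (mem_inter.1 (hω' h)).2
        have : lab c ∈ ω' ∪ ω1 ∩ (X.E \ E') ↔ lab c ∈ ω1 := by
          rw [mem_union, mem_inter, mem_sdiff]; tauto
        simp only [this]
    · rw [if_neg (fun h => hE (mem_inter.1 h).1), if_neg hE]
      simp only [hE, if_false]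
  · rw [if_neg hc, if_neg hc]

lemma tur_freeze (X : Env) (E' ω1 ω' : Finset (ℤ × ℤ)) (hω' : ω' ⊆ X.E ∩ E') (c : ℤ × ℤ) :
    tur (X.E ∩ E') X.S (fun c => if lab c ∈ X.E then del ω1 c else X.dout c) ω' c =
      X.d (ω' ∪ (ω1 ∩ (X.E \ E'))) c := by
  unfold d tur
  by_cases hc : c ∈ X.S
  · rw [if_pos hc, if_pos hc]
    by_cases hE : lab c ∈ X.E
    · by_cases hE' : lab c ∈ E'
      · rw [if_pos (mem_inter.2 ⟨hE, hE'⟩), if_pos hE]
        unfold del
        have : lab c ∈ ω' ∪ ω1 ∩ (X.E \ E') ↔ lab c ∈ ω' := by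
          rw [mem_union, mem_inter, mem_sdiff]; tauto
        simp only [this]
      · rw [if_neg (fun h => hE' (mem_inter.1 h).2), if_pos hE]
        simp only [hE, if_true]
        unfold del
        have h2 : lab c ∉ ω' := fun h => hE' (mem_inter.1 (hω' h)).2
        have : lab c ∈ ω' ∪ ω1 ∩ (X.E \ E') ↔ lab c ∈ ω1 := by
          rw [mem_union, mem_inter, mem_sdiff]; tauto
        simp only [this]
    · rw [if_neg (fun h => hE (mem_inter.1 h).1), if_neg hE]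
      simp only [hE, if_false]
  · rw [if_neg hc, if_neg hc]

lemma freeze_sub (X : Env) {E' ω1 ω' : Finset (ℤ × ℤ)} (hω' : ω' ⊆ X.E ∩ E') :
    ω' ∪ (ω1 ∩ (X.E \ E')) ⊆ X.E := by
  intro x hx
  rcases mem_union.1 hx with h | h
  · exact (mem_inter.1 (hω' h)).1
  · exact (mem_sdiff.1 (mem_inter.1 h).2).1

/-- The environment with the labels of `X.E \ E'` frozen in the state `ω1`. -/
def freeze (X : Env) (E' ω1 : Finset (ℤ × ℤ)) : Env where
  E := X.E ∩ E'
  S := X.S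
  out := fun c => if lab c ∈ X.E then nx ω1 c else X.out c
  dout := fun c => if lab c ∈ X.E then del ω1 c else X.dout c
  c0 := X.c0
  k0 := X.k0
  T := X.T
  odd := fun e he => X.odd e (mem_inter.1 he).1
  c0_mem := X.c0_mem
  in_mem := fun c hc => X.in_mem c (mem_inter.1 hc).1
  maps := fun ω' h c hc => by
    rw [stp_freeze X E' ω1 ω' h]
    exact f_mem (freeze_sub X h) hc
  inj := fun ω' h => by
    intro a _ b _ hab
    rw [stp_freeze X E' ω1 ω' h, stp_freeze X E' ω1 ω' h] at hab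
    exact f_injective (freeze_sub X h) hab
  hk0 := X.hk0
  typed := fun c hc h => by
    by_cases hE : lab c ∈ X.E
    · rw [if_pos hE, if_pos hE]
      exact ty_nx ω1 c (ty c) (ty_mod c)
    · rw [if_neg hE, if_neg hE]
      exact X.typed c hc hE
  root := fun c hc => X.root c (mem_inter.1 hc).1
  total := fun ω' h L hO => by
    have e1 : stp (X.E ∩ E') X.S (fun c => if lab c ∈ X.E then nx ω1 c else X.out c) ω' =
        X.f (ω' ∪ (ω1 ∩ (X.E \ E'))) := funext (stp_freeze X E' ω1 ω' h)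
    have e2 : tur (X.E ∩ E') X.S (fun c => if lab c ∈ X.E then del ω1 c else X.dout c) ω' =
        X.d (ω' ∪ (ω1 ∩ (X.E \ E'))) := funext (tur_freeze X E' ω1 ω' h)
    rw [e1] at hO
    rw [e1, e2]
    exact X.total _ (freeze_sub X h) L hO

variable {X : Env} {E' ω1 : Finset (ℤ × ℤ)}

@[simp] lemma freeze_E : (X.freeze E' ω1).E = X.E ∩ E' := rfl

@[simp] lemma freeze_S : (X.freeze E' ω1).S = X.S := rfl

@[simp] lemma freeze_c0 : (X.freeze E' ω1).c0 = X.c0 := rfl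

@[simp] lemma freeze_k0 : (X.freeze E' ω1).k0 = X.k0 := rfl

lemma freeze_f {ω' : Finset (ℤ × ℤ)} (h : ω' ⊆ X.E ∩ E') :
    (X.freeze E' ω1).f ω' = X.f (ω' ∪ (ω1 ∩ (X.E \ E'))) := funext (stp_freeze X E' ω1 ω' h)

lemma freeze_d {ω' : Finset (ℤ × ℤ)} (h : ω' ⊆ X.E ∩ E') :
    (X.freeze E' ω1).d ω' = X.d (ω' ∪ (ω1 ∩ (X.E \ E'))) := funext (tur_freeze X E' ω1 ω' h)

lemma freeze_len {ω' : Finset (ℤ × ℤ)} (h : ω' ⊆ X.E ∩ E') :
    (X.freeze E' ω1).len ω' = X.len (ω' ∪ (ω1 ∩ (X.E \ E'))) := by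
  unfold len; rw [freeze_f h, freeze_c0]

lemma freeze_z {ω' : Finset (ℤ × ℤ)} (h : ω' ⊆ X.E ∩ E') (i : ℕ) :
    (X.freeze E' ω1).z ω' i = X.z (ω' ∪ (ω1 ∩ (X.E \ E'))) i := by
  unfold z; rw [freeze_f h, freeze_c0]

lemma freeze_K {ω' : Finset (ℤ × ℤ)} (h : ω' ⊆ X.E ∩ E') (i : ℕ) :
    (X.freeze E' ω1).K ω' i = X.K (ω' ∪ (ω1 ∩ (X.E \ E'))) i := by
  unfold K; rw [freeze_f h, freeze_d h, freeze_c0, freeze_k0]

lemma freeze_incO {ω' : Finset (ℤ × ℤ)} (h : ω' ⊆ X.E ∩ E') (c : ℤ × ℤ) :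
    (X.freeze E' ω1).incO ω' c = X.incO (ω' ∪ (ω1 ∩ (X.E \ E'))) c := by
  unfold incO
  rw [freeze_len h]
  exact sum_congr rfl fun i _ => by rw [freeze_z h, freeze_K h]

/-- the increments as expectations -/
lemma inc_eq (X : Env) (c : ℤ × ℤ) :
    X.inc c = Ec (fun _ => (1 / 2 : ℂ)) X.E (fun ω => X.incO ω c) := by
  rw [Ec_half]; rfl

/-- **Markov property**: the increments are the averages of the frozen increments. -/
theorem inc_freeze (X : Env) (E' : Finset (ℤ × ℤ)) (c : ℤ × ℤ) :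
    X.inc c = Ec (fun _ => (1 / 2 : ℂ)) (X.E \ E') (fun ω1 => (X.freeze E' ω1).inc c) := by
  rw [inc_eq]
  have h1 : X.E \ (X.E ∩ E') = X.E \ E' := by
    ext x; simp only [mem_sdiff, mem_inter]; tauto
  rw [Ec_split _ (inter_subset_left (s₁ := X.E) (s₂ := E')), Ec_swap, h1]
  refine Ec_congr fun ω1 hω1 => ?_
  rw [inc_eq, freeze_E]
  refine Ec_congr fun ω' hω' => ?_
  rw [freeze_incO hω']
  congr 2
  exact (inter_eq_left.2 hω1).symm

/-- ‖increment‖ ≤ probability of a visit -/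
lemma inc_norm (X : Env) (c : ℤ × ℤ) :
    ‖X.inc c‖ ≤ PrP (fun _ => 1 / 2) X.E (fun ω => ∃ i < X.len ω, X.z ω i = c) := by
  rw [inc_eq]
  refine Ec_half_norm fun ω hω => ?_
  by_cases h : ∃ i < X.len ω, X.z ω i = c
  · rw [ind_true h]; exact incO_norm hω c
  · rw [ind_false h, incO_zero (by push Not at h; exact h)]; simp

/-- the primitive of the environment is the average of the primitives of the frozen environments:
differences along the rectangle -/
lemma Prim.sub {X : Env} {a b c d : ℤ} {Hv Hf Hv' Hf' : ℤ × ℤ → ℂ} (h : X.Prim a b c d Hv Hf)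
    (h' : X.Prim a b c d Hv' Hf') {e : ℤ × ℤ} (he : e ∈ Bx a b c d) {c1 c2 : ℤ × ℤ}
    (h1 : c1 = in1 e ∨ c1 = in2 e ∨ c1 = nxC (in1 e) ∨ c1 = nxC (in2 e))
    (h2 : c2 = in1 e ∨ c2 = in2 e ∨ c2 = nxC (in1 e) ∨ c2 = nxC (in2 e)) (hv : vx c1 = vx c2) :
    Hf (fi c1) - Hf (fi c2) = Hf' (fi c1) - Hf' (fi c2) := by
  have k1 := h e he c1 h1
  have k2 := h e he c2 h2
  have k3 := h' e he c1 h1
  have k4 := h' e he c2 h2
  rw [hv] at k1 k3
  linear_combination k2 - k1 + k3 - k4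

end Env

end Pool.Agent.Q1
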