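import Mathlib
import Pool.Agent.Q1.Closed
import Pool.Agent.H75.TwoArm.Strand

set_option autoImplicit false
open Finset

/-! # Rigidity of natural environments

Two environments with the same random labels and the same pairing of the corners around them
(`SamePat`) have the same path inside the random part, and the turning indices differ by one
constant: the turnings of all arcs outside are determined by the pairing. -/

namespace Pool.Agent.Q1

open Pool.Agent.H75.Perc Pool.Agent.H75.TwoArm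

namespace Env

/-- the corner `c` is on the path -/
def On (X : Env) (ω : Finset (ℤ × ℤ)) (c : ℤ × ℤ) : Prop := ∃ i, i < X.len ω ∧ X.z ω i = c

variable {X Y : Env}

lemma on_iff {ω : Finset (ℤ × ℤ)} (hω : ω ⊆ X.E) {c : ℤ × ℤ} :
    X.On ω c ↔ InOrb (X.f ω) X.c0 c := ((orb hω).inOrb_iff c).symm

/-- exchange at a tile -/
lemma exists_toggle {ω : Finset (ℤ × ℤ)} (hω : ω ⊆ X.E) {e : ℤ × ℤ} (he : e ∈ X.E) :
    ∃ ω', ω' ⊆ X.E ∧ Swapped (X.f ω) (X.f ω') (in1 e) (in2 e) := by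
  by_cases hn : e ∈ ω
  · refine ⟨ω.erase e, (erase_subset _ _).trans hω, ?_⟩
    have h := (swapped (X := X) (ω := ω.erase e) he (notMem_erase e ω)).symm
    rwa [insert_erase hn] at h
  · exact ⟨insert e ω, insert_subset he hω, swapped he hn⟩

/-- the turning index at the second visit of a tile is determined by the first -/
lemma K_second {ω : Finset (ℤ × ℤ)} (hω : ω ⊆ X.E) {e : ℤ × ℤ} (he : e ∈ X.E) {a b : ℕ}
    (hab : a < b) (hb : b < X.len ω)
    (h : (X.z ω a = in1 e ∧ X.z ω b = in2 e) ∨ (X.z ω a = in2 e ∧ X.z ω b = in1 e)) :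
    X.K ω b = X.K ω a + (if e ∈ ω then 2 else -2) := by
  have ho := X.odd e he
  have l1 : lab (in1 e) ∈ X.E := by rw [lab_in1 e ho]; exact he
  have l2 : lab (in2 e) ∈ X.E := by rw [lab_in2 e ho]; exact he
  by_cases hn : e ∈ ω
  · rw [if_pos hn]
    set ω' := ω.erase e with hω'
    have hsub : ω' ⊆ X.E := (erase_subset _ _).trans hω
    have hne : e ∉ ω' := notMem_erase e ω
    have hins : insert e ω' = ω := insert_erase hn
    have hsw : Swapped (X.f ω) (X.f ω') (in1 e) (in2 e) := by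
      have h1 := (swapped (X := X) (ω := ω') he hne).symm
      rwa [hins] at h1
    have hd : ∀ x, x ≠ in1 e → x ≠ in2 e → X.d ω' x = X.d ω x := by
      intro x h1 h2
      have := d_off (X := X) (ω := ω') he x h1 h2
      rw [hins] at this
      exact this.symm
    have d1 : X.d ω (in1 e) = -1 := by rw [d_in l1]; unfold del; rw [lab_in1 e ho, if_pos hn]
    have d2 : X.d ω (in2 e) = -1 := by rw [d_in l2]; unfold del; rw [lab_in2 e ho, if_pos hn]
    have d3 : X.d ω' (in1 e) = 1 := by rw [d_in l1]; unfold del; rw [lab_in1 e ho, if_neg hne]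
    have d4 : X.d ω' (in2 e) = 1 := by rw [d_in l2]; unfold del; rw [lab_in2 e ho, if_neg hne]
    rcases h with ⟨h1, h2⟩ | ⟨h1, h2⟩
    · obtain ⟨-, g⟩ := hsw.split_KK (e := -1) hd d2 (by rw [d3]; norm_num) X.k0 (orb hω) hab hb h1 h2
      obtain ⟨-, -, g3⟩ := hsw.split (orb hω) hab hb h1 h2
      have t1 := X.total ω' hsub _ g3
      have t2 := K_len hω
      unfold K at t2 ⊢
      unfold d at g
      unfold d f at *
      linarith
    · obtain ⟨-, g⟩ := hsw.comm.split_KK (e := -1) (fun x a b => hd x b a) d1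
        (by rw [d4]; norm_num) X.k0 (orb hω) hab hb h1 h2
      obtain ⟨-, -, g3⟩ := hsw.comm.split (orb hω) hab hb h1 h2
      have t1 := X.total ω' hsub _ g3
      have t2 := K_len hω
      unfold K at t2 ⊢
      unfold d f at *
      linarith
  · rw [if_neg hn]
    set ω' := insert e ω with hω'
    have hsub : ω' ⊆ X.E := insert_subset he hω
    have hmem : e ∈ ω' := mem_insert_self _ _
    have hsw : Swapped (X.f ω) (X.f ω') (in1 e) (in2 e) := swapped he hn
    have hd : ∀ x, x ≠ in1 e → x ≠ in2 e → X.d ω' x = X.d ω x := d_off he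
    have d1 : X.d ω (in1 e) = 1 := by rw [d_in l1]; unfold del; rw [lab_in1 e ho, if_neg hn]
    have d2 : X.d ω (in2 e) = 1 := by rw [d_in l2]; unfold del; rw [lab_in2 e ho, if_neg hn]
    have d3 : X.d ω' (in1 e) = -1 := by rw [d_in l1]; unfold del; rw [lab_in1 e ho, if_pos hmem]
    have d4 : X.d ω' (in2 e) = -1 := by rw [d_in l2]; unfold del; rw [lab_in2 e ho, if_pos hmem]
    rcases h with ⟨h1, h2⟩ | ⟨h1, h2⟩
    · obtain ⟨-, g⟩ := hsw.split_KK (e := 1) hd d2 (by rw [d3]) X.k0 (orb hω) hab hb h1 h2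
      obtain ⟨-, -, g3⟩ := hsw.split (orb hω) hab hb h1 h2
      have t1 := X.total ω' hsub _ g3
      have t2 := K_len hω
      unfold K at t2 ⊢
      unfold d f at *
      linarith
    · obtain ⟨-, g⟩ := hsw.comm.split_KK (e := 1) (fun x a b => hd x b a) d1
        (by rw [d4]) X.k0 (orb hω) hab hb h1 h2
      obtain ⟨-, -, g3⟩ := hsw.comm.split (orb hω) hab hb h1 h2
      have t1 := X.total ω' hsub _ g3
      have t2 := K_len hω
      unfold K at t2 ⊢
      unfold d f at *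
      linarith

/-! ### Arcs outside the random part -/

/-- accumulated turning of the outer steps -/
def aT (X : Env) (c : ℤ × ℤ) (n : ℕ) : ℤ := ∑ k ∈ range n, X.dout (X.out^[k] c)

/-- outer arc with `n` steps from `c` to `c'` -/
structure ArcN (X : Env) (c c' : ℤ × ℤ) (n : ℕ) : Prop where
  last : X.out^[n] c = c'
  mem : lab c' ∈ X.E
  free : ∀ k < n, lab (X.out^[k] c) ∉ X.E

/-- `c'` is the next corner in front of a random tile, starting from `c`, and the arc does not meet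
the root -/
def Arc (X : Env) (c c' : ℤ × ℤ) : Prop := ∃ n, ArcN X c c' n ∧ ∀ k ≤ n, X.out^[k] c ≠ X.c0

/-- `c'` is the first corner of the path in front of a random tile -/
def Start (X : Env) (c' : ℤ × ℤ) : Prop := ∃ n, ArcN X X.c0 c' n

lemma ArcN.unique {c c' c'' : ℤ × ℤ} {n n' : ℕ} (h : ArcN X c c' n) (h' : ArcN X c c'' n') :
    n = n' ∧ c' = c'' := by
  have : n = n' := by
    rcases lt_trichotomy n n' with h1 | h1 | h1
    · exfalso
      apply h'.free n h1
      rw [h.last]; exact h.mem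
    · exact h1
    · exfalso
      apply h.free n' h1
      rw [h'.last]; exact h'.mem
  subst this
  exact ⟨rfl, h.last.symm.trans h'.last⟩

lemma plab_root : plab X.c0 ∉ X.E := by
  intro h
  have h1 : lab (pv ∅ X.c0) ∈ X.E := by rw [lab_pv]; exact h
  apply X.root _ h1
  have h2 : nx ∅ (pv ∅ X.c0) = X.c0 := nx_pv _ _
  unfold nx at h2
  rwa [if_neg (notMem_empty _)] at h2

lemma ne_root {x : ℤ × ℤ} (h : plab x ∈ X.E) : x ≠ X.c0 := by
  rintro rfl
  exact plab_root h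

lemma z_succ_in {ω : Finset (ℤ × ℤ)} {i : ℕ} (h : lab (X.z ω i) ∈ X.E) :
    X.z ω (i + 1) = nx ω (X.z ω i) ∧ X.K ω (i + 1) = X.K ω i + del ω (X.z ω i) := by
  rw [z_succ, K_succ, f_in h, d_in h]
  exact ⟨rfl, rfl⟩

lemma succ_lt {ω : Finset (ℤ × ℤ)} (hω : ω ⊆ X.E) {i : ℕ} (hi : i < X.len ω)
    (h : lab (X.z ω i) ∈ X.E) : i + 1 < X.len ω := by
  rcases Nat.lt_or_ge (i + 1) (X.len ω) with h1 | h1
  · exact h1
  · exfalso
    have h2 : i + 1 = X.len ω := by omega
    have h3 : X.z ω (i + 1) = X.c0 := by rw [h2, z_len hω]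
    have h4 : plab (X.z ω (i + 1)) ∈ X.E := by
      rw [(z_succ_in h).1, plab_nx]; exact h
    exact ne_root h4 h3

/-- the outer steps of the path -/
lemma z_out {ω : Finset (ℤ × ℤ)} (hω : ω ⊆ X.E) {a : ℕ} {n : ℕ}
    (h : ∀ k < n, lab (X.z ω (a + k)) ∉ X.E) :
    ∀ k ≤ n, X.z ω (a + k) = X.out^[k] (X.z ω a) ∧ X.K ω (a + k) = X.K ω a + X.aT (X.z ω a) k := by
  intro k
  induction k with
  | zero => intro _; simp [aT]
  | succ k ih =>
    intro hk
    obtain ⟨h1, h2⟩ := ih (by omega)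
    have h3 := h k (by omega)
    have h4 := z_mem hω (a + k) (X := X)
    have h5 : a + (k + 1) = (a + k) + 1 := by ring
    rw [h5, z_succ, K_succ, f_out h4 h3, d_out h4 h3, h1, h2, Function.iterate_succ_apply']
    refine ⟨rfl, ?_⟩
    unfold aT
    rw [Finset.sum_range_succ]; ring

/-- following outer steps along the path -/
lemma walk {ω : Finset (ℤ × ℤ)} (hω : ω ⊆ X.E) {i : ℕ} (hi : i < X.len ω) {n : ℕ}
    (h : ∀ k < n, lab (X.out^[k] (X.z ω i)) ∉ X.E)
    (h0 : ∀ k ≤ n, 0 < k → X.out^[k] (X.z ω i) ≠ X.c0) :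
    ∀ k ≤ n, i + k < X.len ω ∧ X.z ω (i + k) = X.out^[k] (X.z ω i) := by
  intro k
  induction k with
  | zero => intro _; exact ⟨hi, rfl⟩
  | succ k ih =>
    intro hk
    obtain ⟨h1, h2⟩ := ih (by omega)
    have h3 : X.z ω (i + (k + 1)) = X.out^[k + 1] (X.z ω i) := by
      have h4 := z_mem hω (i + k) (X := X)
      have h5 : lab (X.z ω (i + k)) ∉ X.E := by rw [h2]; exact h k (by omega)
      rw [show i + (k + 1) = (i + k) + 1 by ring, z_succ, f_out h4 h5, h2,
        Function.iterate_succ_apply']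
    refine ⟨?_, h3⟩
    rcases Nat.lt_or_ge (i + (k + 1)) (X.len ω) with h6 | h6
    · exact h6
    · exfalso
      have h7 : i + (k + 1) = X.len ω := by omega
      apply h0 (k + 1) hk (Nat.succ_pos k)
      rw [← h3, h7, z_len hω]

lemma prev_cases (P : ℕ → Prop) (i : ℕ) :
    (∀ k < i, ¬ P k) ∨ ∃ p < i, P p ∧ ∀ k, p < k → k < i → ¬ P k := by
  induction i with
  | zero => left; intro k hk; omega
  | succ i ih =>
    by_cases hP : P i
    · exact Or.inr ⟨i, by omega, hP, fun k h1 h2 => by omega⟩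
    · rcases ih with h | ⟨p, h1, h2, h3⟩
      · left
        intro k hk
        rcases Nat.lt_succ_iff_lt_or_eq.1 hk with h1 | h1
        · exact h k h1
        · rw [h1]; exact hP
      · right
        refine ⟨p, by omega, h2, ?_⟩
        intro k hk1 hk2
        rcases Nat.lt_succ_iff_lt_or_eq.1 hk2 with h4 | h4
        · exact h3 k hk1 h4
        · rw [h4]; exact hP

/-- the part of the path before the first random tile -/
lemma first_arc {ω : Finset (ℤ × ℤ)} (hω : ω ⊆ X.E) {i : ℕ}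
    (hE : lab (X.z ω i) ∈ X.E) (hn : ∀ k < i, lab (X.z ω k) ∉ X.E) :
    ArcN X X.c0 (X.z ω i) i ∧ X.K ω i = X.k0 + X.aT X.c0 i := by
  have h := z_out (X := X) hω (a := 0) (n := i) (by simpa using hn)
  have h1 := h i le_rfl
  simp only [zero_add, z_zero, K_zero] at h1
  refine ⟨⟨h1.1.symm, hE, ?_⟩, h1.2⟩
  intro k hk
  have h2 := h k hk.le
  simp only [zero_add, z_zero] at h2
  rw [← h2.1]
  exact hn k hk

/-- the part of the path between two random tiles -/
lemma next_arc {ω : Finset (ℤ × ℤ)} (hω : ω ⊆ X.E) {p i : ℕ} (hpi : p < i) (hi : i < X.len ω)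
    (hE : lab (X.z ω i) ∈ X.E)
    (hn : ∀ k, p < k → k < i → lab (X.z ω k) ∉ X.E) :
    ArcN X (X.z ω (p + 1)) (X.z ω i) (i - (p + 1)) ∧
      (∀ k ≤ i - (p + 1), X.out^[k] (X.z ω (p + 1)) ≠ X.c0) ∧
      X.K ω i = X.K ω (p + 1) + X.aT (X.z ω (p + 1)) (i - (p + 1)) := by
  have h := z_out (X := X) hω (a := p + 1) (n := i - (p + 1)) (fun k hk => hn _ (by omega) (by omega))
  have h1 := h (i - (p + 1)) le_rfl
  rw [Nat.add_sub_cancel' (by omega : p + 1 ≤ i)] at h1
  refine ⟨⟨h1.1.symm, hE, ?_⟩, ?_, h1.2⟩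
  · intro k hk
    rw [← (h k hk.le).1]
    exact hn _ (by omega) (by omega)
  · intro k hk
    rw [← (h k hk).1]
    intro h2
    have h3 : p + 1 + k = 0 := z_inj hω (by omega) (len_pos hω) h2
    omega

/-! ### The same pairing gives the same path -/

/-- The two environments have the same random labels and the same outer pairing. -/
structure SamePat (X Y : Env) : Prop where
  E : Y.E = X.E
  arc : ∀ x c', plab x ∈ X.E → (X.Arc x c' ↔ Y.Arc x c')
  start : ∀ c', X.Start c' ↔ Y.Start c'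

lemma SamePat.symm (h : SamePat X Y) : SamePat Y X :=
  ⟨h.E.symm, fun x c' hx => (h.arc x c' (by rwa [h.E] at hx)).symm, fun c' => (h.start c').symm⟩

/-- position of the start corner on the path -/
lemma start_walk {ω : Finset (ℤ × ℤ)} (hω : ω ⊆ Y.E) {c' : ℤ × ℤ} {n : ℕ}
    (h : ArcN Y Y.c0 c' n) : n < Y.len ω ∧ Y.z ω n = c' ∧ (∀ k < n, lab (Y.z ω k) ∉ Y.E) ∧
      Y.K ω n = Y.k0 + Y.aT Y.c0 n := by
  have key : ∀ k ≤ n, Y.z ω k = Y.out^[k] Y.c0 := by
    intro k
    induction k with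
    | zero => intro _; rfl
    | succ k ih =>
      intro hk
      have h1 := ih (by omega)
      have h2 : lab (Y.z ω k) ∉ Y.E := by rw [h1]; exact h.free k (by omega)
      rw [z_succ, f_out (z_mem hω k) h2, h1, Function.iterate_succ_apply']
  have hfree : ∀ k < n, lab (Y.z ω k) ∉ Y.E := fun k hk => by
    rw [key k hk.le]; exact h.free k hk
  have hn : Y.z ω n = c' := by rw [key n le_rfl]; exact h.last
  refine ⟨?_, hn, hfree, ?_⟩
  · by_contra hcon
    push Not at hcon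
    have h1 : Y.z ω (n % Y.len ω) = Y.z ω n := (orb hω).mod n
    have h2 : n % Y.len ω < Y.len ω := Nat.mod_lt _ (len_pos hω)
    have h3 := hfree (n % Y.len ω) (by omega)
    rw [h1, hn] at h3
    exact h3 h.mem
  · exact (first_arc hω (by rw [hn]; exact h.mem) hfree).2

/-- **The paths correspond to each other.** -/
theorem SamePat.corr (h : SamePat X Y) {ω : Finset (ℤ × ℤ)} (hω : ω ⊆ X.E) : ∀ i, i < X.len ω →
    lab (X.z ω i) ∈ X.E → ∃ j, j < Y.len ω ∧ Y.z ω j = X.z ω i ∧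
      ∀ i' < i, lab (X.z ω i') ∈ X.E → ∃ j' < j, Y.z ω j' = X.z ω i' := by
  have hω' : ω ⊆ Y.E := by rw [h.E]; exact hω
  intro i
  induction i using Nat.strong_induction_on with
  | _ i ih =>
    intro hi hE
    rcases prev_cases (fun k => lab (X.z ω k) ∈ X.E) i with hn | ⟨p, hp, hpE, hn⟩
    · obtain ⟨h1, -⟩ := first_arc hω hE hn
      obtain ⟨n, hY⟩ := (h.start _).1 ⟨i, h1⟩
      obtain ⟨h2, h3, -, -⟩ := start_walk hω' hY
      exact ⟨n, h2, h3, fun i' hi' hE' => absurd hE' (hn i' hi')⟩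
    · obtain ⟨j, hj, hjz, hj'⟩ := ih p hp (by omega) hpE
      obtain ⟨h1, h2, -⟩ := next_arc hω hp hi hE hn
      have hz1 := (z_succ_in (X := X) hpE).1
      have hx : plab (X.z ω (p + 1)) ∈ X.E := by rw [hz1, plab_nx]; exact hpE
      obtain ⟨n, hA, h0⟩ := (h.arc _ _ hx).1 ⟨_, h1, h2⟩
      have hjE : lab (Y.z ω j) ∈ Y.E := by rw [hjz, h.E]; exact hpE
      have hz2 : Y.z ω (j + 1) = X.z ω (p + 1) := by
        rw [(z_succ_in (X := Y) hjE).1, hjz, hz1]
      have hj1 := succ_lt hω' hj hjE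
      have hw := walk (X := Y) hω' hj1 (n := n) (by rw [hz2]; exact hA.free)
        (by rw [hz2]; exact fun k hk _ => h0 k hk) n le_rfl
      refine ⟨j + 1 + n, hw.1, by rw [hw.2, hz2, hA.last], ?_⟩
      intro i' hi' hE'
      rcases lt_trichotomy i' p with h3 | h3 | h3
      · obtain ⟨j', h4, h5⟩ := hj' i' h3 hE'
        exact ⟨j', by omega, h5⟩
      · subst h3; exact ⟨j, by omega, hjz⟩
      · exact absurd hE' (hn i' h3 hi')

lemma SamePat.on_iff (h : SamePat X Y) {ω : Finset (ℤ × ℤ)} (hω : ω ⊆ X.E) {c : ℤ × ℤ}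
    (hc : lab c ∈ X.E) : X.On ω c ↔ Y.On ω c := by
  have hω' : ω ⊆ Y.E := by rw [h.E]; exact hω
  constructor
  · rintro ⟨i, hi, rfl⟩
    obtain ⟨j, hj, h1, -⟩ := h.corr hω i hi hc
    exact ⟨j, hj, h1⟩
  · rintro ⟨i, hi, rfl⟩
    obtain ⟨j, hj, h1, -⟩ := h.symm.corr hω' i hi (by rw [h.E]; exact hc)
    exact ⟨j, hj, h1⟩

/-- The two paths visit the corners of the random part in the same order. -/
lemma SamePat.mono (h : SamePat X Y) {ω : Finset (ℤ × ℤ)} (hω : ω ⊆ X.E) {i i' j j' : ℕ}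
    (hi : i < X.len ω) (hj : j < Y.len ω) (hj' : j' < Y.len ω) (hE : lab (X.z ω i) ∈ X.E)
    (hE' : lab (X.z ω i') ∈ X.E) (h1 : Y.z ω j = X.z ω i) (h2 : Y.z ω j' = X.z ω i')
    (hlt : i' < i) : j' < j := by
  have hω' : ω ⊆ Y.E := by rw [h.E]; exact hω
  obtain ⟨k, hk, h3, h4⟩ := h.corr hω i hi hE
  have e1 : k = j := z_inj hω' hk hj (h3.trans h1.symm)
  obtain ⟨k', hk', h5⟩ := h4 i' hlt hE'
  have e2 : k' = j' := z_inj hω' (by omega) hj' (h5.trans h2.symm)
  omega

/-! ### Difference of the turning indices -/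

/-- the corner `c` is on both paths and the turning indices differ by `d` -/
def Dd (X Y : Env) (ω : Finset (ℤ × ℤ)) (c : ℤ × ℤ) (d : ℤ) : Prop :=
  ∃ i j, i < X.len ω ∧ j < Y.len ω ∧ X.z ω i = c ∧ Y.z ω j = c ∧ Y.K ω j = X.K ω i + d

lemma Dd.unique {ω : Finset (ℤ × ℤ)} (hω : ω ⊆ X.E) (hω' : ω ⊆ Y.E) {c : ℤ × ℤ} {d d' : ℤ}
    (h : Dd X Y ω c d) (h' : Dd X Y ω c d') : d = d' := by
  obtain ⟨i, j, hi, hj, h1, h2, h3⟩ := h
  obtain ⟨i', j', hi', hj', h1', h2', h3'⟩ := h'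
  have e1 : i = i' := z_inj hω hi hi' (h1.trans h1'.symm)
  have e2 : j = j' := z_inj hω' hj hj' (h2.trans h2'.symm)
  subst e1; subst e2
  linarith

lemma SamePat.exists_Dd (h : SamePat X Y) {ω : Finset (ℤ × ℤ)} (hω : ω ⊆ X.E) {c : ℤ × ℤ}
    (hc : lab c ∈ X.E) (ho : X.On ω c) : ∃ d, Dd X Y ω c d := by
  obtain ⟨i, hi, rfl⟩ := ho
  obtain ⟨j, hj, h1, -⟩ := h.corr hω i hi hc
  exact ⟨Y.K ω j - X.K ω i, i, j, hi, hj, rfl, h1, by ring⟩

/-- the two corners in front of a tile -/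
lemma SamePat.tile (h : SamePat X Y) {ω : Finset (ℤ × ℤ)} (hω : ω ⊆ X.E) {e : ℤ × ℤ}
    (he : e ∈ X.E) {d d' : ℤ} (h1 : Dd X Y ω (in1 e) d) (h2 : Dd X Y ω (in2 e) d') : d = d' := by
  have hω' : ω ⊆ Y.E := by rw [h.E]; exact hω
  have he' : e ∈ Y.E := by rw [h.E]; exact he
  have ho := X.odd e he
  have l1 : lab (in1 e) ∈ X.E := by rw [lab_in1 e ho]; exact he
  have l2 : lab (in2 e) ∈ X.E := by rw [lab_in2 e ho]; exact he
  obtain ⟨i, j, hi, hj, a1, a2, a3⟩ := h1
  obtain ⟨i', j', hi', hj', b1, b2, b3⟩ := h2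
  rcases lt_trichotomy i i' with hlt | heq | hlt
  · have hlt' : j < j' := h.mono hω hi' hj' hj (by rw [b1]; exact l2) (by rw [a1]; exact l1)
      (b2.trans b1.symm) (a2.trans a1.symm) hlt
    have k1 := K_second hω he hlt hi' (Or.inl ⟨a1, b1⟩)
    have k2 := K_second hω' he' hlt' hj' (Or.inl ⟨a2, b2⟩)
    linarith
  · exfalso
    subst heq
    exact in1_ne_in2 e (a1.symm.trans b1)
  · have hlt' : j' < j := h.mono hω hi hj hj' (by rw [a1]; exact l1) (by rw [b1]; exact l2)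
      (a2.trans a1.symm) (b2.trans b1.symm) hlt
    have k1 := K_second hω he hlt hi (Or.inr ⟨b1, a1⟩)
    have k2 := K_second hω' he' hlt' hj (Or.inr ⟨b2, a2⟩)
    linarith

/-- one step inside the random part -/
lemma SamePat.step (h : SamePat X Y) {ω : Finset (ℤ × ℤ)} (hω : ω ⊆ X.E) {c : ℤ × ℤ}
    (hc : lab c ∈ X.E) {d : ℤ} (h1 : Dd X Y ω c d) : Dd X Y ω (nx ω c) d := by
  have hω' : ω ⊆ Y.E := by rw [h.E]; exact hω
  obtain ⟨i, j, hi, hj, a1, a2, a3⟩ := h1
  have hE : lab (X.z ω i) ∈ X.E := by rw [a1]; exact hc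
  have hE' : lab (Y.z ω j) ∈ Y.E := by rw [a2, h.E]; exact hc
  have s1 := z_succ_in (X := X) hE
  have s2 := z_succ_in (X := Y) hE'
  refine ⟨i + 1, j + 1, succ_lt hω hi hE, succ_lt hω' hj hE', ?_, ?_, ?_⟩
  · rw [s1.1, a1]
  · rw [s2.1, a2]
  · rw [s1.2, s2.2, a1, a2, a3]; ring

/-- `x` is on the path if and only if the corner before it is, inside the random part -/
lemma on_nx {ω : Finset (ℤ × ℤ)} (hω : ω ⊆ X.E) {c : ℤ × ℤ} (hc : lab c ∈ X.E) :
    X.On ω (nx ω c) ↔ X.On ω c := by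
  constructor
  · rintro ⟨i, hi, h⟩
    rcases Nat.eq_zero_or_pos i with h0 | h0
    · exfalso
      subst h0
      have h2 : plab (nx ω c) ∈ X.E := by rw [plab_nx]; exact hc
      exact ne_root h2 h.symm
    · refine ⟨i - 1, by omega, ?_⟩
      have h1 : X.f ω (X.z ω (i - 1)) = X.f ω c := by
        rw [← z_succ, Nat.sub_add_cancel h0, h, f_in hc]
      exact f_injective hω h1
  · rintro ⟨i, hi, h⟩
    have hE : lab (X.z ω i) ∈ X.E := by rw [h]; exact hc
    exact ⟨i + 1, succ_lt hω hi hE, by rw [(z_succ_in hE).1, h]⟩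

/-- two tiles which share a corner -/
def TAdj (a b : ℤ × ℤ) : Prop := ∃ c, (plab c = a ∧ lab c = b) ∨ (lab c = a ∧ plab c = b)

/-- the set of tiles is connected (through common corners) -/
def TConn (E : Finset (ℤ × ℤ)) : Prop :=
  ∀ a ∈ E, ∀ b ∈ E, Relation.ReflTransGen (fun x y => TAdj x y ∧ y ∈ E) a b

open Classical in
/-- There is a configuration in which the path visits all random corners, if it visits one. -/
lemma exists_full (hc : TConn X.E) (hs : ∃ c, X.Start c) : ∃ ω ⊆ X.E, ∀ c, lab c ∈ X.E →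
    X.On ω c := by
  set N : Finset (ℤ × ℤ) → ℕ := fun ω => (X.S.filter (fun c => lab c ∈ X.E ∧ X.On ω c)).card with hN
  obtain ⟨ω, hω, hmax⟩ := exists_max_image X.E.powerset N ⟨∅, by simp⟩
  rw [mem_powerset] at hω
  refine ⟨ω, hω, ?_⟩
  -- both corners of a tile or none
  have hboth : ∀ e ∈ X.E, ∀ p q, ((p = in1 e ∧ q = in2 e) ∨ (p = in2 e ∧ q = in1 e)) →
      X.On ω p → X.On ω q := by
    intro e he p q hpq hp
    by_contra hq
    have ho := X.odd e he
    obtain ⟨ω', hω', hsw⟩ := exists_toggle hω he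
    have hsw' : Swapped (X.f ω) (X.f ω') p q := by
      rcases hpq with ⟨rfl, rfl⟩ | ⟨rfl, rfl⟩
      · exact hsw
      · exact hsw.comm
    have lq : lab q ∈ X.E := by
      rcases hpq with ⟨-, rfl⟩ | ⟨-, rfl⟩
      · rw [lab_in2 e ho]; exact he
      · rw [lab_in1 e ho]; exact he
    obtain ⟨M, hM⟩ := orb_ex hω (X.in_mem _ lq)
    obtain ⟨-, m2, m3, -⟩ := hsw'.merge (orb hω) hM ((on_iff hω).1 hp) (fun h => hq ((on_iff hω).2 h))
    have h1 : N ω < N ω' := by
      rw [hN]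
      apply card_lt_card
      rw [ssubset_iff_of_subset]
      · refine ⟨q, mem_filter.2 ⟨X.in_mem _ lq, lq, (on_iff hω').2 m2⟩, ?_⟩
        intro h
        exact hq (mem_filter.1 h).2.2
      · intro c hc
        rw [mem_filter] at hc ⊢
        exact ⟨hc.1, hc.2.1, (on_iff hω').2 (m3 c ((on_iff hω).1 hc.2.2))⟩
    have := hmax ω' (mem_powerset.2 hω')
    omega
  have htile : ∀ e ∈ X.E, (X.On ω (in1 e) ∨ X.On ω (in2 e)) → X.On ω (in1 e) ∧ X.On ω (in2 e) := by
    intro e he h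
    rcases h with h | h
    · exact ⟨h, hboth e he _ _ (Or.inl ⟨rfl, rfl⟩) h⟩
    · exact ⟨hboth e he _ _ (Or.inr ⟨rfl, rfl⟩) h, h⟩
  have hof : ∀ c, lab c ∈ X.E → X.On ω c → X.On ω (in1 (lab c)) ∧ X.On ω (in2 (lab c)) := by
    intro c hc h
    apply htile _ hc
    rcases (lab_eq_iff (lab c) c (X.odd _ hc)).1 rfl with h1 | h1
    · left; rw [← h1]; exact h
    · right; rw [← h1]; exact h
  have hall : ∀ e ∈ X.E, (X.On ω (in1 e) ∧ X.On ω (in2 e)) → ∀ c, lab c = e → X.On ω c := by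
    intro e he h c hc
    rcases (lab_eq_iff e c (X.odd _ he)).1 hc with h1 | h1
    · rw [h1]; exact h.1
    · rw [h1]; exact h.2
  -- propagation
  have hstep : ∀ a b, a ∈ X.E → b ∈ X.E → TAdj a b → (X.On ω (in1 a) ∧ X.On ω (in2 a)) →
      (X.On ω (in1 b) ∧ X.On ω (in2 b)) := by
    rintro a b ha hb ⟨c, ⟨h1, h2⟩ | ⟨h1, h2⟩⟩ h
    · have h3 : lab (pv ω c) = a := by rw [lab_pv, h1]
      have h4 := hall a ha h _ h3
      have h5 := (on_nx hω (by rw [h3]; exact ha)).2 h4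
      rw [nx_pv] at h5
      have := hof c (by rw [h2]; exact hb) h5
      rwa [h2] at this
    · have h3 := hall a ha h _ h1
      have h4 : lab (pv ω c) = b := by rw [lab_pv, h2]
      have h5 : X.On ω (nx ω (pv ω c)) := by rw [nx_pv]; exact h3
      have h6 := (on_nx hω (by rw [h4]; exact hb)).1 h5
      have := hof _ (by rw [h4]; exact hb) h6
      rwa [h4] at this
  obtain ⟨c1, n, hn⟩ := hs
  obtain ⟨s1, s2, -, -⟩ := start_walk hω hn
  have hc1 := hof c1 hn.mem ⟨n, s1, s2⟩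
  intro c hc'
  have hreach := hc _ hn.mem _ hc'
  have : ∀ b, Relation.ReflTransGen (fun x y => TAdj x y ∧ y ∈ X.E) (lab c1) b →
      b ∈ X.E ∧ X.On ω (in1 b) ∧ X.On ω (in2 b) := by
    intro b hb
    induction hb with
    | refl => exact ⟨hn.mem, hc1⟩
    | tail _ hbc ih => exact ⟨hbc.2, hstep _ _ ih.1 hbc.2 hbc.1 ih.2⟩
  exact hall _ hc' (this _ hreach).2 c rfl

lemma SamePat.full_const (h : SamePat X Y) (hc : TConn X.E) {ω : Finset (ℤ × ℤ)} (hω : ω ⊆ X.E)
    (hfull : ∀ c, lab c ∈ X.E → X.On ω c) {c1 : ℤ × ℤ} (h1 : lab c1 ∈ X.E) {d : ℤ}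
    (hd : Dd X Y ω c1 d) : ∀ c, lab c ∈ X.E → Dd X Y ω c d := by
  have hω' : ω ⊆ Y.E := by rw [h.E]; exact hω
  have hof : ∀ c, lab c ∈ X.E → Dd X Y ω c d → ∀ c', lab c' = lab c → Dd X Y ω c' d := by
    intro c hc hcd c' hc'
    have ho := X.odd _ hc
    have l1 : lab (in1 (lab c)) ∈ X.E := by rw [lab_in1 _ ho]; exact hc
    have l2 : lab (in2 (lab c)) ∈ X.E := by rw [lab_in2 _ ho]; exact hc
    obtain ⟨d1, e1⟩ := h.exists_Dd hω l1 (hfull _ l1)
    obtain ⟨d2, e2⟩ := h.exists_Dd hω l2 (hfull _ l2)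
    have e12 : d1 = d2 := h.tile hω hc e1 e2
    subst e12
    have : d1 = d := by
      rcases (lab_eq_iff (lab c) c ho).1 rfl with h3 | h3
      · rw [← h3] at e1; exact e1.unique hω hω' hcd
      · rw [← h3] at e2; exact e2.unique hω hω' hcd
    subst this
    rcases (lab_eq_iff (lab c) c' ho).1 hc' with h3 | h3
    · rw [h3]; exact e1
    · rw [h3]; exact e2
  intro c hcE
  have hreach := hc _ h1 _ hcE
  have key : ∀ b, Relation.ReflTransGen (fun x y => TAdj x y ∧ y ∈ X.E) (lab c1) b →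
      b ∈ X.E ∧ ∀ c', lab c' = b → Dd X Y ω c' d := by
    intro b hb
    induction hb with
    | refl => exact ⟨h1, fun c' hc' => hof c1 h1 hd c' hc'⟩
    | @tail a b _ hab ih =>
      refine ⟨hab.2, ?_⟩
      obtain ⟨ha, ih⟩ := ih
      obtain ⟨⟨c', h2 | h2⟩, hb⟩ := hab
      · have h3 : lab (pv ω c') = a := by rw [lab_pv, h2.1]
        have h4 := h.step hω (by rw [h3]; exact ha) (ih _ h3)
        rw [nx_pv] at h4
        intro c'' hc''
        exact hof c' (by rw [h2.2]; exact hb) h4 c'' (by rw [h2.2]; exact hc'')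
      · have h4 : lab (pv ω c') = b := by rw [lab_pv, h2.2]
        have l4 : lab (pv ω c') ∈ X.E := by rw [h4]; exact hb
        obtain ⟨d', e'⟩ := h.exists_Dd hω l4 (hfull _ l4)
        have e2 := h.step hω l4 e'
        rw [nx_pv] at e2
        have : d' = d := e2.unique hω hω' (ih _ h2.1)
        subst this
        intro c'' hc''
        exact hof _ l4 e' c'' (by rw [h4]; exact hc'')
  exact (key _ hreach).2 c rfl

/-- an arc from `x` to the root -/
structure EndN (X : Env) (x : ℤ × ℤ) (n : ℕ) : Prop where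
  last : X.out^[n] x = X.c0
  free : ∀ k < n, lab (X.out^[k] x) ∉ X.E
  root : ∀ k < n, X.out^[k] x ≠ X.c0

/-- walking along an arc not through the root -/
lemma arc_walk {ω : Finset (ℤ × ℤ)} (hω : ω ⊆ X.E) {i : ℕ} (hi : i < X.len ω) {c' : ℤ × ℤ} {n : ℕ}
    (hA : ArcN X (X.z ω i) c' n) (h0 : ∀ k ≤ n, X.out^[k] (X.z ω i) ≠ X.c0) :
    i + n < X.len ω ∧ X.z ω (i + n) = c' ∧ X.K ω (i + n) = X.K ω i + X.aT (X.z ω i) n := by
  have hw := walk (X := X) hω hi (n := n) hA.free (fun k hk _ => h0 k hk)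
  have h1 := hw n le_rfl
  have h2 := z_out (X := X) hω (a := i) (n := n) (fun k hk => by
    rw [(hw k hk.le).2]; exact hA.free k hk) n le_rfl
  exact ⟨h1.1, by rw [h1.2, hA.last], h2.2⟩

lemma end_walk {ω : Finset (ℤ × ℤ)} (hω : ω ⊆ X.E) {i : ℕ} (hi : i < X.len ω) {n : ℕ}
    (hne : X.z ω i ≠ X.c0) (hA : EndN X (X.z ω i) n) :
    i + n = X.len ω ∧ X.K ω i + X.aT (X.z ω i) n = X.k0 + X.T := by
  rcases Nat.eq_zero_or_pos n with h0 | h0
  · exfalso
    subst h0
    exact hne hA.last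
  · have hw := walk (X := X) hω hi (n := n - 1) (fun k hk => hA.free k (by omega))
      (fun k hk _ => hA.root k (by omega))
    have h1 := hw (n - 1) le_rfl
    have h2 := z_out (X := X) hω (a := i) (n := n) (fun k hk => by
      rw [(hw k (by omega)).2]; exact hA.free k hk) n le_rfl
    have h3 : X.z ω (i + n) = X.c0 := by rw [h2.1, hA.last]
    have h4 : i + n = X.len ω := by
      by_contra hcon
      have h5 : i + n < X.len ω := by omega
      have := z_inj hω h5 (len_pos hω) h3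
      omega
    refine ⟨h4, ?_⟩
    rw [← h2.2, h4, K_len hω]

/-- **Rigidity.** Two environments with the same random labels (a connected set of tiles met by the
path) and the same outer pairing: the turning indices differ by one constant `κ`, and the turnings of
all outer arcs agree. -/
theorem SamePat.rigid (h : SamePat X Y) (hc : TConn X.E) {c1 : ℤ × ℤ} {n1 n1' : ℕ}
    (s1 : ArcN X X.c0 c1 n1) (s1' : ArcN Y Y.c0 c1 n1') {κ : ℤ}
    (hκ : Y.k0 + Y.aT Y.c0 n1' = X.k0 + X.aT X.c0 n1 + κ) :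
    (∀ x c' n n', plab x ∈ X.E → ArcN X x c' n → (∀ k ≤ n, X.out^[k] x ≠ X.c0) →
      ArcN Y x c' n' → (∀ k ≤ n', Y.out^[k] x ≠ Y.c0) → Y.aT x n' = X.aT x n) ∧
    (∀ x n n', plab x ∈ X.E → EndN X x n → EndN Y x n' →
      Y.aT x n' - Y.k0 - Y.T = X.aT x n - X.k0 - X.T - κ) ∧
    (∀ ω ⊆ X.E, ∀ c, lab c ∈ X.E → X.On ω c → Dd X Y ω c κ) := by
  obtain ⟨ωf, hωf, hfull⟩ := exists_full hc ⟨c1, n1, s1⟩
  have hωf' : ωf ⊆ Y.E := by rw [h.E]; exact hωf
  have hstart : ∀ ω, ω ⊆ X.E → Dd X Y ω c1 κ := by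
    intro ω hω
    have hω' : ω ⊆ Y.E := by rw [h.E]; exact hω
    obtain ⟨a1, a2, -, a4⟩ := start_walk hω s1
    obtain ⟨b1, b2, -, b4⟩ := start_walk hω' s1'
    exact ⟨n1, n1', a1, b1, a2, b2, by rw [a4, b4, hκ]⟩
  have hconst := h.full_const hc hωf hfull s1.mem (hstart ωf hωf)
  -- the exit corners in the full configuration
  have hexit : ∀ x, plab x ∈ X.E → Dd X Y ωf x κ := by
    intro x hx
    have h1 : lab (pv ωf x) ∈ X.E := by rw [lab_pv]; exact hx
    have h2 := h.step hωf h1 (hconst _ h1)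
    rwa [nx_pv] at h2
  have harc : ∀ x c' n n', plab x ∈ X.E → ArcN X x c' n → (∀ k ≤ n, X.out^[k] x ≠ X.c0) →
      ArcN Y x c' n' → (∀ k ≤ n', Y.out^[k] x ≠ Y.c0) → Y.aT x n' = X.aT x n := by
    intro x c' n n' hx hA h0 hA' h0'
    obtain ⟨i, j, hi, hj, a1, a2, a3⟩ := hexit x hx
    have w1 := arc_walk (X := X) hωf hi (by rw [a1]; exact hA) (by rw [a1]; exact h0)
    have w2 := arc_walk (X := Y) hωf' hj (by rw [a2]; exact hA') (by rw [a2]; exact h0')
    obtain ⟨i', j', hi', hj', b1, b2, b3⟩ := hconst c' hA.mem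
    have e1 : i' = i + n := z_inj hωf hi' w1.1 (b1.trans w1.2.1.symm)
    have e2 : j' = j + n' := z_inj hωf' hj' w2.1 (b2.trans w2.2.1.symm)
    rw [e1, e2, w1.2.2, w2.2.2, a1, a2, a3] at b3
    linarith
  refine ⟨harc, ?_, ?_⟩
  · intro x n n' hx hA hA'
    obtain ⟨i, j, hi, hj, a1, a2, a3⟩ := hexit x hx
    have hx' : plab x ∈ Y.E := by rw [h.E]; exact hx
    have w1 := end_walk (X := X) hωf hi (by rw [a1]; exact ne_root hx) (by rw [a1]; exact hA)
    have w2 := end_walk (X := Y) hωf' hj (by rw [a2]; exact ne_root hx') (by rw [a2]; exact hA')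
    have w1 := w1.2
    have w2 := w2.2
    rw [a1] at w1
    rw [a2, a3] at w2
    linarith
  · -- induction along the path
    intro ω hω c hcE hon
    have hω' : ω ⊆ Y.E := by rw [h.E]; exact hω
    obtain ⟨i, hi, rfl⟩ := hon
    revert hi hcE
    induction i using Nat.strong_induction_on with
    | _ i ih =>
      intro hi hE
      rcases prev_cases (fun k => lab (X.z ω k) ∈ X.E) i with hn | ⟨p, hp, hpE, hn⟩
      · obtain ⟨f1, -⟩ := first_arc hω hE hn
        have := (f1.unique s1).2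
        rw [this]
        exact hstart ω hω
      · have hd := ih p hp (by omega) hpE
        obtain ⟨i', j, hi', hj, a1, a2, a3⟩ := hd
        have e1 : i' = p := z_inj hω hi' (by omega) a1
        subst e1
        obtain ⟨g1, g2, g3⟩ := next_arc hω hp hi hE hn
        have hz1 := z_succ_in (X := X) hpE
        have hx : plab (X.z ω (i' + 1)) ∈ X.E := by rw [hz1.1, plab_nx]; exact hpE
        obtain ⟨n, hA, h0⟩ := (h.arc _ _ hx).1 ⟨_, g1, g2⟩
        have hjE : lab (Y.z ω j) ∈ Y.E := by rw [a2, h.E]; exact hpE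
        have hz2 := z_succ_in (X := Y) hjE
        have hz3 : Y.z ω (j + 1) = X.z ω (i' + 1) := by rw [hz2.1, a2, hz1.1]
        have hj1 := succ_lt hω' hj hjE
        have w := arc_walk (X := Y) hω' hj1 (by rw [hz3]; exact hA) (by rw [hz3]; exact h0)
        have ht := harc _ _ _ _ hx g1 g2 hA h0
        refine ⟨i, j + 1 + n, hi, w.1, rfl, w.2.1, ?_⟩
        rw [w.2.2, g3, hz3, ht, hz2.2, hz1.2, a2, a3]
        ring

/-- if the path does not start in front of the random part it never meets it -/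
lemma not_on {ω : Finset (ℤ × ℤ)} (hω : ω ⊆ X.E) (hs : ¬ ∃ c, X.Start c) {c : ℤ × ℤ}
    (hc : lab c ∈ X.E) : ¬ X.On ω c := by
  rintro ⟨i, hi, rfl⟩
  revert hi hc
  induction i using Nat.strong_induction_on with
  | _ i ih =>
    intro hi hE
    rcases prev_cases (fun k => lab (X.z ω k) ∈ X.E) i with hn | ⟨p, hp, hpE, hn⟩
    · exact hs ⟨_, i, (first_arc hω hE hn).1⟩
    · exact ih p hp (by omega) hpE

lemma on_exit {ω : Finset (ℤ × ℤ)} (hω : ω ⊆ X.E) {x : ℤ × ℤ} (hx : plab x ∈ X.E) :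
    X.On ω x ↔ X.On ω (pv ω x) := by
  have h1 : lab (pv ω x) ∈ X.E := by rw [lab_pv]; exact hx
  have := on_nx (X := X) hω h1
  rwa [nx_pv] at this

lemma incO_of_not {ω : Finset (ℤ × ℤ)} {c : ℤ × ℤ} (h : ¬ X.On ω c) : X.incO ω c = 0 :=
  incO_zero fun i hi hz => h ⟨i, hi, hz⟩

lemma Dd.incO {ω : Finset (ℤ × ℤ)} (hω : ω ⊆ X.E) (hω' : ω ⊆ Y.E) {c : ℤ × ℤ} {d : ℤ}
    (h : Dd X Y ω c d) : Y.incO ω c = ph d * X.incO ω c := by
  obtain ⟨i, j, hi, hj, h1, h2, h3⟩ := h
  rw [incO_of hω hi h1, incO_of hω' hj h2, h3, add_comm, ph_add]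

/-- **Seen pattern, pathwise**: the increments of two environments with the same pairing differ by
one unimodular constant. -/
theorem SamePat.incO (h : SamePat X Y) (hc : TConn X.E) {κ : ℤ}
    (hκ : ∀ c1 n1 n1', ArcN X X.c0 c1 n1 → ArcN Y Y.c0 c1 n1' →
      Y.k0 + Y.aT Y.c0 n1' = X.k0 + X.aT X.c0 n1 + κ) {ω : Finset (ℤ × ℤ)} (hω : ω ⊆ X.E)
    {c : ℤ × ℤ} (hcc : lab c ∈ X.E ∨ plab c ∈ X.E) : Y.incO ω c = ph κ * X.incO ω c := by
  have hω' : ω ⊆ Y.E := by rw [h.E]; exact hω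
  by_cases hs : ∃ c, X.Start c
  · obtain ⟨c1, n1, s1⟩ := hs
    obtain ⟨n1', s1'⟩ := (h.start c1).1 ⟨n1, s1⟩
    obtain ⟨-, -, hD⟩ := h.rigid hc s1 s1' (hκ _ _ _ s1 s1')
    have main : ∀ c, lab c ∈ X.E → Y.incO ω c = ph κ * X.incO ω c := by
      intro c hcE
      by_cases ho : X.On ω c
      · exact (hD ω hω c hcE ho).incO hω hω'
      · rw [incO_of_not ho, incO_of_not (fun h2 => ho ((h.on_iff hω hcE).2 h2)), mul_zero]
    rcases hcc with hcc | hcc
    · exact main c hcc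
    · have l1 : lab (pv ω c) ∈ X.E := by rw [lab_pv]; exact hcc
      by_cases ho : X.On ω (pv ω c)
      · have h2 := h.step hω l1 (hD ω hω _ l1 ho)
        rw [nx_pv] at h2
        exact h2.incO hω hω'
      · have h2 : ¬ X.On ω c := fun h3 => ho ((on_exit hω hcc).1 h3)
        have h3 : ¬ Y.On ω c := fun h4 => ho ((h.on_iff hω l1).2
          ((on_exit hω' (by rw [h.E]; exact hcc)).1 h4))
        rw [incO_of_not h2, incO_of_not h3, mul_zero]
  · have hs' : ¬ ∃ c, Y.Start c := fun ⟨c, h1⟩ => hs ⟨c, (h.start c).2 h1⟩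
    have h1 : ¬ X.On ω c := by
      rcases hcc with hcc | hcc
      · exact not_on hω hs hcc
      · rw [on_exit hω hcc]
        exact not_on hω hs (by rw [lab_pv]; exact hcc)
    have h2 : ¬ Y.On ω c := by
      rcases hcc with hcc | hcc
      · exact not_on hω' hs' (by rw [h.E]; exact hcc)
      · rw [on_exit hω' (by rw [h.E]; exact hcc)]
        exact not_on hω' hs' (by rw [lab_pv, h.E]; exact hcc)
    rw [incO_of_not h1, incO_of_not h2, mul_zero]

/-- **Seen pattern**: the increments of `H` of two environments with the same pairing differ by one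
unimodular constant. -/
theorem SamePat.inc (h : SamePat X Y) (hc : TConn X.E) {κ : ℤ}
    (hκ : ∀ c1 n1 n1', ArcN X X.c0 c1 n1 → ArcN Y Y.c0 c1 n1' →
      Y.k0 + Y.aT Y.c0 n1' = X.k0 + X.aT X.c0 n1 + κ)
    {c : ℤ × ℤ} (hcc : lab c ∈ X.E ∨ plab c ∈ X.E) : Y.inc c = ph κ * X.inc c := by
  unfold Env.inc
  rw [h.E, Finset.sum_congr rfl (fun ω hω => h.incO hc hκ (mem_powerset.1 hω) hcc),
    ← Finset.mul_sum]
  ring

/-- the same with some constant -/
theorem SamePat.exists_inc (h : SamePat X Y) (hc : TConn X.E) :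
    ∃ κ : ℤ, ∀ c, (lab c ∈ X.E ∨ plab c ∈ X.E) → Y.inc c = ph κ * X.inc c := by
  by_cases hs : ∃ c, X.Start c
  · obtain ⟨c1, n1, s1⟩ := hs
    obtain ⟨n1', s1'⟩ := (h.start c1).1 ⟨n1, s1⟩
    refine ⟨Y.k0 + Y.aT Y.c0 n1' - (X.k0 + X.aT X.c0 n1), fun c hcc => h.inc hc ?_ hcc⟩
    intro c2 n2 n2' s2 s2'
    obtain ⟨e1, e2⟩ := s2.unique s1
    subst e1; subst e2
    obtain ⟨e3, -⟩ := s2'.unique s1'
    subst e3
    ring
  · exact ⟨0, fun c hcc => h.inc hc (fun c2 n2 _ s2 _ => absurd ⟨c2, n2, s2⟩ hs) hcc⟩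

/-- **Seen pattern with the end arc**: if the end arcs have the same turning (and `k0`, `T` are the same)
then the increments are equal. -/
theorem SamePat.inc_of_end (h : SamePat X Y) (hc : TConn X.E) (hk : Y.k0 = X.k0) (hT : Y.T = X.T)
    {x : ℤ × ℤ}
    {n n' : ℕ} (hx : plab x ∈ X.E) (hA : EndN X x n) (hA' : EndN Y x n')
    (ht : Y.aT x n' = X.aT x n) {c : ℤ × ℤ} (hcc : lab c ∈ X.E ∨ plab c ∈ X.E) :
    Y.inc c = X.inc c := by
  have := h.inc hc (κ := 0) (c := c) ?_ hcc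
  · rw [this, ph_zero, one_mul]
  · intro c1 n1 n1' s1 s1'
    have h2 := (h.rigid hc s1 s1' (κ := Y.k0 + Y.aT Y.c0 n1' - (X.k0 + X.aT X.c0 n1))
      (by ring)).2.1 x n n' hx hA hA'
    linarith

end Env

end Pool.Agent.Q1
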